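import Pool.Agent.Lib.MP_d3d358_ag.Mor.Thk
import Pool.Agent.Lib.MP_d3d358_ag.Th.HDefs

/-! Single complexes in the homotopy category, and the Morita theorem for an additive category
with heights. -/

set_option autoImplicit false
set_option linter.unusedSectionVars false

open CategoryTheory Category Limits Pretriangulated Abelian

namespace Pool.Agent.Lib.MP_d3d358_ag.Mor

open Th (HK sing env KF DF)

universe w v u v' u'

variable {P : Type u} [Category.{v} P] [Preadditive P] [HasZeroObject P] [HasBinaryBiproducts P]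

/-- An additive functor commutes with the single functors of the homotopy categories. -/
noncomputable def singKF {Q : Type u'} [Category.{v'} Q] [Preadditive Q] [HasZeroObject Q]
    (F : P ⥤ Q) [F.Additive] :
    HomotopyCategory.singleFunctor P 0 ⋙ KF F ≅ F ⋙ HomotopyCategory.singleFunctor Q 0 :=
  Functor.isoWhiskerRight (HomologicalComplex.singleMapHomologicalComplex F (ComplexShape.up ℤ) 0)
    (HomotopyCategory.quotient Q (ComplexShape.up ℤ))

/-- The derived version of `singKF`. -/
noncomputable def singDF {A : Type u'} [Category.{v'} A] [Abelian A] [HasDerivedCategory.{w} A]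
    (F : P ⥤ A) [F.Additive] :
    HomotopyCategory.singleFunctor P 0 ⋙ DF F ≅ F ⋙ DerivedCategory.singleFunctor A 0 :=
  Functor.isoWhiskerRight (singKF F) DerivedCategory.Qh

theorem env_sing {S : ObjectProperty P} {X : P} (h : S X) : env S (sing X) :=
  ObjectProperty.le_triangEnvelope _ _ ⟨X, h, rfl⟩

theorem env_mono {S S' : ObjectProperty P} (h : ∀ X, S X → S' X) {Z : HK P} (hZ : env S Z) :
    env S' Z :=
  ObjectProperty.monotone_triangEnvelope (fun _ ⟨X, hX, e⟩ => ⟨X, h X hX, e⟩) Z hZ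

instance (S : ObjectProperty P) : (env S).IsStableUnderRetracts :=
  inferInstanceAs (ObjectProperty.triangEnvelope _).IsStableUnderRetracts

instance (S : ObjectProperty P) : (env S).IsStableUnderShift ℤ :=
  inferInstanceAs ((ObjectProperty.triangEnvelope _).IsStableUnderShift ℤ)

instance (S : ObjectProperty P) : (env S).IsTriangulatedClosed₂ :=
  inferInstanceAs (ObjectProperty.triangEnvelope _).IsTriangulatedClosed₂

instance (S : ObjectProperty P) [h : S.Nonempty] : (env S).IsTriangulated :=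
  haveI : ObjectProperty.Nonempty (C := HK P) (fun Z => ∃ X, S X ∧ Z = sing X) := by
    obtain ⟨X, hX⟩ := h
    exact ⟨_, X, hX, rfl⟩
  inferInstanceAs (ObjectProperty.triangEnvelope _).IsTriangulated

/-- Induction along `env S`. -/
theorem env_ind {S : ObjectProperty P} {W : HK P → Prop} (of : ∀ X, S X → W (sing X))
    (zero : ∀ X, IsZero X → W X) (retr : ∀ X Y, Retract X Y → W Y → W X)
    (shift : ∀ X (n : ℤ), W X → W (X⟦n⟧))
    (ext : ∀ T ∈ distTriang (HK P), W T.obj₁ → W T.obj₃ → W T.obj₂) {Z : HK P} (h : env S Z) :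
    W Z :=
  thick_ind (by rintro _ ⟨X, hX, rfl⟩; exact of X hX) zero retr shift ext h

theorem single_hom_zero {X Y : P} {a b : ℤ} (h : a ≠ b)
    (f : (CochainComplex.singleFunctor P a).obj X ⟶ (CochainComplex.singleFunctor P b).obj Y) :
    f = 0 := by
  refine HomologicalComplex.hom_ext _ _ fun i => ?_
  by_cases hi : i = a
  · exact (HomologicalComplex.isZero_single_obj_X (ComplexShape.up ℤ) b Y i
      (hi ▸ h)).eq_of_tgt _ _
  · exact (HomologicalComplex.isZero_single_obj_X (ComplexShape.up ℤ) a X i hi).eq_of_src _ _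

/-- There is no morphism between single complexes in different degrees. -/
theorem sing_hom_zero {X Y : P} {n : ℤ} (hn : n ≠ 0) (f : sing X ⟶ (sing Y)⟦n⟧) : f = 0 := by
  let e := ((HomotopyCategory.singleFunctors P).shiftIso n (-n) 0 (by lia)).app Y
  obtain ⟨g, hg⟩ := (HomotopyCategory.quotient P (ComplexShape.up ℤ)).map_surjective
    (X := (CochainComplex.singleFunctor P 0).obj X)
    (Y := (CochainComplex.singleFunctor P (-n)).obj Y) (f ≫ e.hom)
  rw [single_hom_zero (by lia) g, Functor.map_zero] at hg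
  have : f ≫ e.hom = 0 := hg.symm
  rw [← cancel_mono e.hom, this]
  exact zero_comp.symm

instance singFull : (HomotopyCategory.singleFunctor P 0).Full :=
  inferInstanceAs (CochainComplex.singleFunctor P 0 ⋙
    HomotopyCategory.quotient P (ComplexShape.up ℤ)).Full

instance singFaithful : (HomotopyCategory.singleFunctor P 0).Faithful where
  map_injective {X Y f g} h := by
    have H := HomotopyCategory.homotopyOfEq ((CochainComplex.singleFunctor P 0).map f)
      ((CochainComplex.singleFunctor P 0).map g) h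
    apply (CochainComplex.singleFunctor P 0).map_injective
    refine HomologicalComplex.from_single_hom_ext ?_
    have := H.comm 0
    rw [dNext_eq H.hom (show (ComplexShape.up ℤ).Rel 0 1 by simp),
      prevD_eq H.hom (show (ComplexShape.up ℤ).Rel (-1) 0 by simp)] at this
    simp only [CochainComplex.singleFunctor_obj_d, zero_comp, comp_zero, zero_add] at this
    exact this

section Dict

variable {A : Type u'} [Category.{v'} A] [Abelian A] [HasDerivedCategory.{w} A]
  (F : P ⥤ A) [F.Additive]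

theorem bij_sing_iff (X Y : P) : Bij₀ (DF F) (sing X) (sing Y) ↔ Bij₀ F X Y := by
  constructor
  · intro h
    exact (((Bij₀.of_ff (HomotopyCategory.singleFunctor P 0) X Y).comp h).natIso
      (singDF F)).of_comp_right (Bij₀.of_ff _ _ _)
  · intro h
    exact ((h.comp (Bij₀.of_ff (DerivedCategory.singleFunctor A 0) _ _)).natIso
      (singDF F).symm).of_comp_left (Bij₀.of_ff _ _ _)

/-- The image of a shifted single complex. -/
noncomputable def singShiftDF (Y : P) (n : ℤ) :
    (DF F).obj ((sing Y)⟦n⟧) ≅ ((DerivedCategory.singleFunctor A 0).obj (F.obj Y))⟦n⟧ :=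
  ((DF F).commShiftIso n).app (sing Y) ≪≫ (shiftFunctor _ n).mapIso ((singDF F).app Y)

theorem DF_hom_neg {X Y : P} {n : ℤ} (hn : n < 0)
    (f : (DF F).obj (sing X) ⟶ (DF F).obj ((sing Y)⟦n⟧)) : f = 0 := by
  have h₁ : DerivedCategory.TStructure.t.IsLE
    ((DerivedCategory.singleFunctor A 0).obj (F.obj X)) 0 := inferInstance
  have h₂ : DerivedCategory.TStructure.t.IsGE
      (((DerivedCategory.singleFunctor A 0).obj (F.obj Y))⟦n⟧) (-n) :=
    DerivedCategory.TStructure.t.isGE_shift _ 0 n (-n) (by lia)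
  have := DerivedCategory.TStructure.t.zero_of_isLE_of_isGE
    (((singDF F).app X).inv ≫ f ≫ (singShiftDF F Y n).hom) 0 (-n) (by lia) h₁ h₂
  rw [← cancel_epi ((singDF F).app X).inv, ← cancel_mono (singShiftDF F Y n).hom, assoc, this]
  simp

variable [HasExt.{w} A]

/-- Morphisms in the derived category between images of single complexes are `Ext` groups. -/
noncomputable def extDF (X Y : P) (n : ℕ) :
    Ext (F.obj X) (F.obj Y) n ≃ ((DF F).obj (sing X) ⟶ (DF F).obj ((sing Y)⟦(n : ℤ)⟧)) :=
  Ext.homEquiv.trans (Iso.homCongr ((singDF F).app X) (singShiftDF F Y n)).symm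

theorem extDF_apply {X Y : P} {n : ℕ} (x : Ext (F.obj X) (F.obj Y) n) :
    extDF F X Y n x = (singDF F).hom.app X ≫ x.hom ≫ (singShiftDF F Y n).inv := rfl

theorem extDF_zero (X Y : P) (n : ℕ) : extDF F X Y n 0 = 0 := by
  rw [extDF_apply, Ext.zero_hom]
  simp

theorem extDF_comp {X Y Y' : P} {n : ℕ} (x : Ext (F.obj X) (F.obj Y) n) (u : Y ⟶ Y') :
    extDF F X Y' n (x.comp (Ext.mk₀ (F.map u)) (add_zero n)) =
      extDF F X Y n x ≫ (DF F).map (((HomotopyCategory.singleFunctor P 0).map u)⟦(n : ℤ)⟧') := by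
  have e : (DF F).map (((HomotopyCategory.singleFunctor P 0).map u)⟦(n : ℤ)⟧') ≫
      (singShiftDF F Y' n).hom = (singShiftDF F Y n).hom ≫
        ((DerivedCategory.singleFunctor A 0).map (F.map u))⟦(n : ℤ)⟧' := by
    have h₁ := ((DF F).commShiftIso (n : ℤ)).hom.naturality
      ((HomotopyCategory.singleFunctor P 0).map u)
    have h₂ := congrArg (shiftFunctor (DerivedCategory A) (n : ℤ)).map ((singDF F).hom.naturality u)
    rw [Functor.map_comp, Functor.map_comp] at h₂
    exact (assoc _ _ _).symm.trans <| (congrArg (· ≫ _) h₁).trans <| (assoc _ _ _).trans <|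
      (congrArg (_ ≫ ·) h₂).trans (assoc _ _ _).symm
  rw [extDF_apply, extDF_apply, Ext.comp_hom, Ext.mk₀_hom, ShiftedHom.comp_mk₀,
    ← cancel_mono (singShiftDF F Y' n).hom]
  simp only [assoc, e, Iso.inv_hom_id, comp_id, Iso.inv_hom_id_assoc]

theorem comp_extDF {X X' Y : P} {n : ℕ} (u : X' ⟶ X) (x : Ext (F.obj X) (F.obj Y) n) :
    extDF F X' Y n ((Ext.mk₀ (F.map u)).comp x (zero_add n)) =
      (DF F).map ((HomotopyCategory.singleFunctor P 0).map u) ≫ extDF F X Y n x := by
  rw [extDF_apply, extDF_apply, Ext.comp_hom, Ext.mk₀_hom, ShiftedHom.mk₀_comp]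
  have h := (singDF F).hom.naturality u
  exact (congrArg (_ ≫ ·) (assoc _ _ _)).trans <| (assoc _ _ _).symm.trans <|
    (congrArg (· ≫ _) h.symm).trans (assoc _ _ _)

/-- The dictionary between the derived functor on single complexes and `Hom`, `Ext`. -/
theorem bij_DF_iff (X Y : P) : Bij (DF F) (sing X) (sing Y) ↔
    Bij₀ F X Y ∧ ∀ j : ℕ, Subsingleton (Ext (F.obj X) (F.obj Y) (j + 1)) := by
  constructor
  · intro h
    refine ⟨(bij_sing_iff F X Y).1 h.zero, fun j => ?_⟩
    rw [(extDF F X Y (j + 1)).subsingleton_congr]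
    refine subsingleton_of_forall_eq 0 fun f => ?_
    obtain ⟨g, rfl⟩ := (h _).2 f
    rw [sing_hom_zero (by lia) g, Functor.map_zero]
  · rintro ⟨h₀, h⟩ n
    obtain hn | rfl | hn := lt_trichotomy n 0
    · exact Bij₀.of_subsingleton (sing_hom_zero hn.ne) (DF_hom_neg F hn)
    · exact ((bij_sing_iff F X Y).2 h₀).iso (Iso.refl _) ((shiftFunctorZero _ ℤ).app _).symm
    · obtain ⟨j, rfl⟩ : ∃ j : ℕ, n = ((j + 1 : ℕ) : ℤ) := ⟨(n - 1).toNat, by lia⟩
      have := (extDF F X Y (j + 1)).subsingleton_congr.1 (h j)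
      exact Bij₀.of_subsingleton (sing_hom_zero hn.ne') fun f => Subsingleton.elim _ _

end Dict

/-- An additive functor that is bijective on `X ⟶ Y` is bijective on the shifted singles. -/
theorem bij_KF {Q : Type u'} [Category.{v'} Q] [Preadditive Q] [HasZeroObject Q]
    [HasBinaryBiproducts Q] (F : P ⥤ Q) [F.Additive] {X Y : P} (h : Bij₀ F X Y) :
    Bij (KF F) (sing X) (sing Y) := fun n => by
  by_cases hn : n = 0
  · subst hn
    exact (((h.comp (Bij₀.of_ff (HomotopyCategory.singleFunctor Q 0) _ _)).natIso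
      (singKF F).symm).of_comp_left (Bij₀.of_ff _ _ _)).iso (Iso.refl _)
        ((shiftFunctorZero _ ℤ).app _).symm
  · refine Bij₀.of_subsingleton (sing_hom_zero hn) fun f => ?_
    let e := ((KF F).commShiftIso n).app (sing Y) ≪≫ (shiftFunctor _ n).mapIso ((singKF F).app Y)
    have := sing_hom_zero hn (((singKF F).app X).inv ≫ f ≫ e.hom)
    rw [← cancel_epi ((singKF F).app X).inv, ← cancel_mono e.hom, assoc]
    exact this.trans (by simp)

theorem bounded_DF {A : Type u'} [Category.{v'} A] [Abelian A] [HasDerivedCategory.{w} A]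
    (F : P ⥤ A) [F.Additive] {S : ObjectProperty P} {Z : HK P} (h : env S Z) :
    DerivedCategory.TStructure.t.bounded ((DF F).obj Z) :=
  thick_map (A := DF F) (by
    rintro _ ⟨X, -, rfl⟩
    exact ObjectProperty.prop_of_iso _ ((singDF F).app X).symm
      ⟨⟨0, inferInstanceAs (((DerivedCategory.singleFunctor A 0).obj (F.obj X)).IsGE 0)⟩,
        ⟨0, inferInstanceAs (((DerivedCategory.singleFunctor A 0).obj (F.obj X)).IsLE 0)⟩⟩) h

/-- The Morita theorem. -/
theorem mor {k : Type*} [Ring k] [Linear k P] {A B : Type*} [Category* A] [Category* B]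
    [Abelian A] [Abelian B] [Linear k A] [Linear k B] [HasDerivedCategory A]
    [HasDerivedCategory B] (α : P ⥤ A) [α.Additive] [α.Linear k] (β : P ⥤ B) [β.Additive]
    [β.Linear k] (Le Ge : ℝ → ObjectProperty P) (hLe : Monotone Le) (hGe : Antitone Ge)
    (all : ∀ X, ∃ a, Le a X)
    (hα : ∀ a b X Y, a < b → Le a X → Ge b Y → Bij (DF α) (sing X) (sing Y))
    (hβ : ∀ a b X Y, a < b → Le a X → Ge b Y → Bij (DF β) (sing X) (sing Y))
    (push : ∀ (X : P) (b : ℝ), ∃ (Q : HK P) (s : sing X ⟶ Q), env (Ge b) Q ∧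
      IsIso ((DF α).map s) ∧ IsIso ((DF β).map s))
    (gα : ∀ Z : DerivedCategory A, DerivedCategory.TStructure.t.bounded Z →
      ObjectProperty.triangEnvelope (fun W => ∃ X : P,
        Nonempty (Retract W ((DerivedCategory.singleFunctor A 0).obj (α.obj X)))) Z)
    (gβ : ∀ Z : DerivedCategory B, DerivedCategory.TStructure.t.bounded Z →
      ObjectProperty.triangEnvelope (fun W => ∃ X : P,
        Nonempty (Retract W ((DerivedCategory.singleFunctor B 0).obj (β.obj X)))) Z) :
    ∃ (F : DerivedCategory.Bounded A ⥤ DerivedCategory.Bounded B) (_ : F.CommShift ℤ),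
      F.IsEquivalence ∧ F.IsTriangulated ∧ F.Linear k := by
  obtain ⟨O, -⟩ := HasZeroObject.zero (C := P)
  obtain ⟨a₀, h₀⟩ := all O
  have lev : ∀ (S : ObjectProperty P) (Z : HK P), env S Z → ∃ a, env (Le (max a a₀)) Z :=
    fun S Z h => thick_level (Lo := fun a => fun Z : HK P => ∃ X, Le (max a a₀) X ∧ Z = sing X)
      (fun a b hab _ ⟨X, hX, e⟩ => ⟨X, hLe (max_le_max_right _ hab) _ hX, e⟩)
      (fun a => ⟨_, O, hLe (le_max_right _ _) _ h₀, rfl⟩)
      (by
        rintro _ ⟨X, -, rfl⟩
        obtain ⟨a, ha⟩ := all X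
        exact ⟨a, X, hLe (le_max_left _ _) _ ha, rfl⟩) h
  have pu : ∀ X : P, Push (DF α) (DF β) (fun a => env (Le (max a a₀)))
      (fun a => env (Ge (max a a₀ + 1))) (sing X) := fun X =>
    ⟨lev ⊤ _ (env_sing trivial), fun b => by
      obtain ⟨Q, s, hQ, i⟩ := push X (max b a₀ + 1)
      exact ⟨Q, s, hQ, lev _ _ hQ, i⟩⟩
  refine morH (k := k) (DF α) (DF β) (Lo := fun a => env (Le (max a a₀)))
    (Hi := fun a => env (Ge (max a a₀ + 1)))
    (fun a b hab _ => env_mono (hLe (max_le_max_right _ hab)))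
    (fun a b hab _ => env_mono (hGe (add_le_add_left (max_le_max_right _ hab) 1)))
    (fun a X Y => Bij.thick ?_) (fun a X Y => Bij.thick ?_) (fun a X => bounded_DF α)
    (fun a X => bounded_DF β) ?_ ?_ gα gβ
  · rintro _ _ ⟨X, hX, rfl⟩ ⟨Y, hY, rfl⟩
    exact hα _ _ X Y (lt_add_one _) hX hY
  · rintro _ _ ⟨X, hX, rfl⟩ ⟨Y, hY, rfl⟩
    exact hβ _ _ X Y (lt_add_one _) hX hY
  · rintro Z ⟨X, ⟨ρ⟩⟩
    exact ⟨_, pu X, ⟨ρ.trans (Retract.ofIso ((singDF α).app X).symm)⟩⟩
  · rintro Z ⟨X, ⟨ρ⟩⟩
    exact ⟨_, pu X, ⟨ρ.trans (Retract.ofIso ((singDF β).app X).symm)⟩⟩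

end Pool.Agent.Lib.MP_d3d358_ag.Mor
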