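import Mathlib

/-! Devissage in a pretriangulated category: the envelope of a class of objects, bijectivity of a
triangulated functor on morphisms between envelopes, and approximation by high objects. -/

set_option autoImplicit false

open CategoryTheory Category Limits Pretriangulated Triangulated ZeroObject

namespace Pool.Agent.Lib.MP_d3d358_ag.Mor

variable {H : Type*} [Category* H] [HasZeroObject H] [HasShift H ℤ] [Preadditive H]
  [∀ n : ℤ, (shiftFunctor H n).Additive] [Pretriangulated H]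

/-- The smallest class containing `S` and the zero objects, closed under shifts and extensions. -/
inductive EnvP (S : ObjectProperty H) : H → Prop
  | of {X : H} : S X → EnvP S X
  | zero {X : H} : IsZero X → EnvP S X
  | shift {X : H} (n : ℤ) : EnvP S X → EnvP S (X⟦n⟧)
  | ext (T : Triangle H) (hT : T ∈ distTriang H) : EnvP S T.obj₁ → EnvP S T.obj₃ → EnvP S T.obj₂

/-- The envelope of `S` (no retracts). -/
def Env (S : ObjectProperty H) : ObjectProperty H := EnvP S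

variable {S S' : ObjectProperty H}

theorem Env.of {X : H} (h : S X) : Env S X := EnvP.of h

theorem Env.zero {X : H} (h : IsZero X) : Env S X := EnvP.zero h

theorem Env.shift {X : H} (h : Env S X) (n : ℤ) : Env S (X⟦n⟧) := EnvP.shift n h

theorem Env.ext₂ (T : Triangle H) (hT : T ∈ distTriang H) (h₁ : Env S T.obj₁)
    (h₃ : Env S T.obj₃) : Env S T.obj₂ := EnvP.ext T hT h₁ h₃

theorem Env.iso {X Y : H} (e : X ≅ Y) (h : Env S X) : Env S Y :=
  Env.ext₂ (Triangle.mk e.hom (0 : Y ⟶ 0) 0)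
    ((Triangle.distinguished_iff_of_isZero₃ _ (isZero_zero H)).2 (inferInstanceAs (IsIso e.hom))) h
    (Env.zero (isZero_zero H))

instance : (Env S).IsClosedUnderIsomorphisms where
  of_iso e h := Env.iso e h

instance : (Env S).ContainsZero where
  exists_zero := ⟨0, isZero_zero H, Env.zero (isZero_zero H)⟩

instance : (Env S).IsStableUnderShift ℤ where
  isStableUnderShiftBy n := ⟨fun _ h => Env.shift h n⟩

instance : (Env S).IsTriangulated where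
  toIsTriangulatedClosed₂ := ObjectProperty.IsTriangulatedClosed₂.mk' fun T hT h₁ h₃ =>
    Env.ext₂ T hT h₁ h₃

theorem Env.ext₁ (T : Triangle H) (hT : T ∈ distTriang H) (h₂ : Env S T.obj₂)
    (h₃ : Env S T.obj₃) : Env S T.obj₁ := (Env S).ext_of_isTriangulatedClosed₁ T hT h₂ h₃

theorem Env.ext₃ (T : Triangle H) (hT : T ∈ distTriang H) (h₁ : Env S T.obj₁)
    (h₂ : Env S T.obj₂) : Env S T.obj₃ := (Env S).ext_of_isTriangulatedClosed₃ T hT h₁ h₂

/-- Induction over the envelope. -/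
theorem Env.induction {Q : H → Prop} (of : ∀ X, S X → Q X) (zero : ∀ X, IsZero X → Q X)
    (shift : ∀ X (n : ℤ), Env S X → Q X → Q (X⟦n⟧))
    (ext : ∀ T ∈ distTriang H, Env S T.obj₁ → Env S T.obj₃ → Q T.obj₁ → Q T.obj₃ → Q T.obj₂)
    {X : H} (h : Env S X) : Q X := by
  induction h with
  | of h => exact of _ h
  | zero h => exact zero _ h
  | shift n h ih => exact shift _ n h ih
  | ext T hT h₁ h₃ i₁ i₃ => exact ext T hT h₁ h₃ i₁ i₃

theorem Env.le (h : S ≤ Env S') : Env S ≤ Env S' := fun _ hX =>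
  Env.induction (Q := Env S') h (fun _ => Env.zero) (fun _ n _ => fun i => i.shift n)
    (fun T hT _ _ => Env.ext₂ T hT) hX

theorem Env.mono (h : S ≤ S') : Env S ≤ Env S' := Env.le fun X hX => Env.of (h X hX)

theorem Env.le_of_isTriangulated {Q : ObjectProperty H} [Q.IsTriangulated]
    [Q.IsClosedUnderIsomorphisms] (h : S ≤ Q) : Env S ≤ Q := fun _ hX =>
  Env.induction (Q := Q) h (fun _ => Q.prop_of_isZero)
    (fun _ n _ i => Q.le_shift n _ i) (fun T hT _ _ => Q.ext_of_isTriangulatedClosed₂ T hT) hX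

/-- An object of the envelope of an increasing union lies in the envelope of one member. -/
theorem Env.exists_level {J : Type*} [SemilatticeSup J] [Nonempty J] {Lo : J → ObjectProperty H}
    (hLo : Monotone Lo) (hS : ∀ X, S X → ∃ a, Env (Lo a) X) {X : H} (h : Env S X) :
    ∃ a, Env (Lo a) X := by
  refine Env.induction (Q := fun X => ∃ a, Env (Lo a) X) hS
    (fun _ h => ⟨Classical.arbitrary J, Env.zero h⟩) (fun _ n _ ⟨a, i⟩ => ⟨a, i.shift n⟩) ?_ h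
  rintro T hT - - ⟨a, ha⟩ ⟨b, hb⟩
  exact ⟨a ⊔ b, Env.ext₂ T hT (Env.mono (hLo le_sup_left) _ ha) (Env.mono (hLo le_sup_right) _ hb)⟩

section Bij

variable {D : Type*} [Category* D] [HasZeroObject D] [HasShift D ℤ] [Preadditive D]
  [∀ n : ℤ, (shiftFunctor D n).Additive] [Pretriangulated D]

/-- The functor is bijective on the morphisms from `X` to `Y`. -/
def Bij₀ {H D : Type*} [Category* H] [Category* D] (A : H ⥤ D) (X Y : H) : Prop :=
  Function.Bijective (A.map : (X ⟶ Y) → (A.obj X ⟶ A.obj Y))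

theorem Bij₀.iso {H D : Type*} [Category* H] [Category* D] {A : H ⥤ D} {X Y X' Y' : H}
    (h : Bij₀ A X Y) (e : X ≅ X') (e' : Y ≅ Y') : Bij₀ A X' Y' := by
  have : (A.map : (X' ⟶ Y') → _) =
      (Iso.homCongr (A.mapIso e) (A.mapIso e')) ∘ A.map ∘ (Iso.homCongr e e').symm := by
    funext f
    simp [Iso.homCongr]
  rw [Bij₀, this]
  exact (Equiv.bijective _).comp (Function.Bijective.comp h (Equiv.bijective _))

theorem Bij₀.natIso {H D : Type*} [Category* H] [Category* D] {A B : H ⥤ D} {X Y : H}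
    (h : Bij₀ A X Y) (e : A ≅ B) : Bij₀ B X Y := by
  have : (B.map : (X ⟶ Y) → _) = (Iso.homCongr (e.app X) (e.app Y)) ∘ A.map := by
    funext f
    simp [Iso.homCongr]
  rw [Bij₀, this]
  exact (Equiv.bijective _).comp h

theorem Bij₀.comp {H D E : Type*} [Category* H] [Category* D] [Category* E] {A : H ⥤ D}
    {B : D ⥤ E} {X Y : H} (h : Bij₀ A X Y) (h' : Bij₀ B (A.obj X) (A.obj Y)) :
    Bij₀ (A ⋙ B) X Y :=
  Function.Bijective.comp (g := (B.map : (A.obj X ⟶ A.obj Y) → _)) h' h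

theorem Bij₀.of_comp_right {H D E : Type*} [Category* H] [Category* D] [Category* E] {A : H ⥤ D}
    {B : D ⥤ E} {X Y : H} (h : Bij₀ (A ⋙ B) X Y) (h' : Bij₀ B (A.obj X) (A.obj Y)) :
    Bij₀ A X Y := (Function.Bijective.of_comp_iff' h' _).1 h

theorem Bij₀.of_comp_left {H D E : Type*} [Category* H] [Category* D] [Category* E] {A : H ⥤ D}
    {B : D ⥤ E} {X Y : H} (h : Bij₀ (A ⋙ B) X Y) (h' : Bij₀ A X Y) :
    Bij₀ B (A.obj X) (A.obj Y) := (Function.Bijective.of_comp_iff _ h').1 h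

theorem Bij₀.of_ff {H D : Type*} [Category* H] [Category* D] (A : H ⥤ D) [A.Full] [A.Faithful]
    (X Y : H) : Bij₀ A X Y := ⟨A.map_injective, A.map_surjective⟩

theorem Bij₀.of_subsingleton {H D : Type*} [Category* H] [Category* D] [Preadditive H]
    [Preadditive D] {A : H ⥤ D} [A.Additive] {X Y : H} (h : ∀ f : X ⟶ Y, f = 0)
    (h' : ∀ f : A.obj X ⟶ A.obj Y, f = 0) : Bij₀ A X Y :=
  ⟨fun f g _ => by rw [h f, h g], fun f => ⟨0, by rw [h' f, A.map_zero]⟩⟩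

theorem Bij₀.shift {H D : Type*} [Category* H] [Category* D] [HasShift H ℤ] [HasShift D ℤ]
    {A : H ⥤ D} [A.CommShift ℤ] {X Y : H} (h : Bij₀ A X Y) (n : ℤ) : Bij₀ A (X⟦n⟧) (Y⟦n⟧) :=
  Bij₀.of_comp_left (A := shiftFunctor H n)
    ((h.comp (Bij₀.of_ff (shiftFunctor D n) _ _)).natIso (A.commShiftIso n).symm)
    (Bij₀.of_ff _ _ _)

theorem exists_invRot (T : Triangle H) (hT : T ∈ distTriang H) :
    ∃ (m : T.obj₃⟦(-1 : ℤ)⟧ ⟶ T.obj₁) (w : T.obj₂ ⟶ T.obj₃⟦(-1 : ℤ)⟧⟦(1 : ℤ)⟧),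
      Triangle.mk m T.mor₁ w ∈ distTriang H := ⟨_, _, inv_rot_of_distTriang T hT⟩

variable {A : H ⥤ D} [A.CommShift ℤ] [A.IsTriangulated]

theorem Bij₀.five_right {X : H} (T : Triangle H) (hT : T ∈ distTriang H)
    (h₀ : Bij₀ A X (T.obj₃⟦(-1 : ℤ)⟧)) (h₁ : Bij₀ A X T.obj₁) (h₃ : Bij₀ A X T.obj₃)
    (h₄ : Bij₀ A X (T.obj₁⟦(1 : ℤ)⟧)) : Bij₀ A X T.obj₂ := by
  have hA := A.map_distinguished T hT
  obtain ⟨m, w, hi⟩ := exists_invRot T hT
  have hA' := A.map_distinguished _ hi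
  have z : m ≫ T.mor₁ = 0 := comp_distTriang_mor_zero₁₂ _ hi
  constructor
  · refine (injective_iff_map_eq_zero (A.mapAddHom (X := X) (Y := T.obj₂))).2 fun f hf => ?_
    have hf' : A.map f = 0 := hf
    have e : f ≫ T.mor₂ = 0 := h₃.1 (by rw [A.map_comp, hf', zero_comp, A.map_zero])
    obtain ⟨a, rfl⟩ := T.coyoneda_exact₂ hT f e
    obtain ⟨c', hc'⟩ : ∃ c' : A.obj X ⟶ A.obj (T.obj₃⟦(-1 : ℤ)⟧), A.map a = c' ≫ A.map m :=
      Triangle.coyoneda_exact₂ _ hA' (A.map a) (by rw [A.map_comp] at hf'; exact hf')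
    obtain ⟨c, rfl⟩ := h₀.2 c'
    have ha : a = c ≫ m := h₁.1 (by rw [A.map_comp]; exact hc')
    rw [ha, assoc, z, comp_zero]
  · intro g
    obtain ⟨c, hc⟩ := h₃.2 (g ≫ A.map T.mor₂)
    have e : c ≫ T.mor₃ = 0 := h₄.1 (by
      rw [A.map_comp, hc, assoc, ← A.map_comp, comp_distTriang_mor_zero₂₃ T hT, A.map_zero,
        comp_zero, A.map_zero])
    obtain ⟨b, rfl⟩ := T.coyoneda_exact₃ hT c e
    obtain ⟨a', ha'⟩ := Triangle.coyoneda_exact₂ _ hA (g - A.map b) (by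
      change (g - A.map b) ≫ A.map T.mor₂ = 0
      rw [Preadditive.sub_comp, ← hc, A.map_comp, sub_self])
    obtain ⟨a, rfl⟩ := h₁.2 a'
    refine ⟨a ≫ T.mor₁ + b, ?_⟩
    rw [A.map_add, A.map_comp]
    exact (sub_eq_iff_eq_add.1 ha').symm

theorem Bij₀.five_left {Y : H} (T : Triangle H) (hT : T ∈ distTriang H)
    (h₀ : Bij₀ A (T.obj₃⟦(-1 : ℤ)⟧) Y) (h₁ : Bij₀ A T.obj₁ Y) (h₃ : Bij₀ A T.obj₃ Y)
    (h₄ : Bij₀ A (T.obj₁⟦(1 : ℤ)⟧) Y) : Bij₀ A T.obj₂ Y := by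
  have hA := A.map_distinguished T hT
  have hA' := A.map_distinguished _ (rot_of_distTriang T hT)
  obtain ⟨m, w, hi⟩ := exists_invRot T hT
  have z : m ≫ T.mor₁ = 0 := comp_distTriang_mor_zero₁₂ _ hi
  constructor
  · refine (injective_iff_map_eq_zero (A.mapAddHom (X := T.obj₂) (Y := Y))).2 fun f hf => ?_
    have hf' : A.map f = 0 := hf
    have e : T.mor₁ ≫ f = 0 := h₁.1 (by rw [A.map_comp, hf', comp_zero, A.map_zero])
    obtain ⟨a, rfl⟩ := T.yoneda_exact₂ hT f e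
    obtain ⟨c', hc'⟩ := Triangle.yoneda_exact₂ _ hA' (A.map a) (by
      rw [A.map_comp] at hf'; exact hf')
    obtain ⟨c, rfl⟩ := h₄.2 c'
    have ha : a = T.mor₃ ≫ c := h₃.1 (by rw [A.map_comp]; exact hc')
    rw [ha, ← assoc, comp_distTriang_mor_zero₂₃ T hT, zero_comp]
  · intro g
    obtain ⟨c, hc⟩ := h₁.2 (A.map T.mor₁ ≫ g)
    have e : m ≫ c = 0 := h₀.1 (by
      rw [A.map_comp, hc, ← assoc, ← A.map_comp, z, A.map_zero, zero_comp, A.map_zero])
    obtain ⟨b, hb⟩ : ∃ b : T.obj₂ ⟶ Y, c = T.mor₁ ≫ b := Triangle.yoneda_exact₂ _ hi c e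
    obtain ⟨a', ha'⟩ := Triangle.yoneda_exact₂ _ hA (g - A.map b) (by
      change A.map T.mor₁ ≫ (g - A.map b) = 0
      rw [Preadditive.comp_sub, ← hc, hb, A.map_comp, sub_self])
    obtain ⟨a, rfl⟩ := h₃.2 a'
    refine ⟨T.mor₂ ≫ a + b, ?_⟩
    rw [A.map_add, A.map_comp]
    exact (sub_eq_iff_eq_add.1 ha').symm

/-- The functor is bijective on the morphisms from `X` to all shifts of `Y`. -/
def Bij {H D : Type*} [Category* H] [Category* D] [HasShift H ℤ] (A : H ⥤ D) (X Y : H) : Prop :=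
  ∀ n : ℤ, Bij₀ A X (Y⟦n⟧)

theorem Bij.zero {H D : Type*} [Category* H] [Category* D] [HasShift H ℤ] {A : H ⥤ D} {X Y : H}
    (h : Bij A X Y) : Bij₀ A X Y := (h 0).iso (Iso.refl _) ((shiftFunctorZero H ℤ).app Y)

theorem Bij.iso {H D : Type*} [Category* H] [Category* D] [HasShift H ℤ] {A : H ⥤ D}
    {X Y X' Y' : H} (h : Bij A X Y) (e : X ≅ X') (e' : Y ≅ Y') : Bij A X' Y' :=
  fun n => (h n).iso e ((shiftFunctor H n).mapIso e')

theorem Bij.shift_right {H D : Type*} [Category* H] [Category* D] [HasShift H ℤ] {A : H ⥤ D}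
    {X Y : H} (h : Bij A X Y) (m : ℤ) : Bij A X (Y⟦m⟧) :=
  fun n => (h (m + n)).iso (Iso.refl _) ((shiftFunctorAdd H m n).app Y)

theorem Bij.shift_left {H D : Type*} [Category* H] [Category* D] [HasShift H ℤ] [HasShift D ℤ]
    {A : H ⥤ D} [A.CommShift ℤ] {X Y : H} (h : Bij A X Y) (m : ℤ) : Bij A (X⟦m⟧) Y :=
  fun n => ((h (n - m)).shift m).iso (Iso.refl _)
    ((shiftFunctorAdd' H (n - m) m n (by lia)).app Y).symm

theorem Bij.ext_right {X : H} (T : Triangle H) (hT : T ∈ distTriang H) (h₁ : Bij A X T.obj₁)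
    (h₃ : Bij A X T.obj₃) : Bij A X T.obj₂ := fun n =>
  Bij₀.five_right _ (Triangle.shift_distinguished T hT n) (h₃.shift_right n (-1)) (h₁ n) (h₃ n)
    (h₁.shift_right n 1)

theorem Bij.ext_left {Y : H} (T : Triangle H) (hT : T ∈ distTriang H) (h₁ : Bij A T.obj₁ Y)
    (h₃ : Bij A T.obj₃ Y) : Bij A T.obj₂ Y := fun n =>
  Bij₀.five_left T hT (h₃.shift_left (-1) n) (h₁ n) (h₃ n) (h₁.shift_left 1 n)

theorem Bij.of_isZero_left {X : H} (h : IsZero X) (Y : H) : Bij A X Y := fun _ =>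
  Bij₀.of_subsingleton (fun f => h.eq_of_src f 0) fun f => (A.map_isZero h).eq_of_src f 0

theorem Bij.of_isZero_right (X : H) {Y : H} (h : IsZero Y) : Bij A X Y := fun n =>
  Bij₀.of_subsingleton (fun f => ((shiftFunctor H n).map_isZero h).eq_of_tgt f 0)
    fun f => (A.map_isZero ((shiftFunctor H n).map_isZero h)).eq_of_tgt f 0

theorem Bij.env_right {X : H} (h : ∀ Y, S Y → Bij A X Y) {Y : H} (hY : Env S Y) : Bij A X Y :=
  Env.induction (Q := fun Y => Bij A X Y) h (fun _ => Bij.of_isZero_right X)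
    (fun _ n _ i => i.shift_right n) (fun T hT _ _ => Bij.ext_right T hT) hY

theorem Bij.env_left {Y : H} (h : ∀ X, S X → Bij A X Y) {X : H} (hX : Env S X) : Bij A X Y :=
  Env.induction (Q := fun X => Bij A X Y) h (fun _ z => Bij.of_isZero_left z Y)
    (fun _ n _ i => i.shift_left n) (fun T hT _ _ => Bij.ext_left T hT) hX

/-- Double devissage. -/
theorem Bij.env (h : ∀ X Y, S X → S' Y → Bij A X Y) {X Y : H} (hX : Env S X) (hY : Env S' Y) :
    Bij A X Y := Bij.env_left (fun X hX => Bij.env_right (fun Y hY => h X Y hX hY) hY) hX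

/-- The image of the envelope lies in the envelope of the image. -/
theorem Env.map {R : ObjectProperty D} (h : ∀ X, S X → Env R (A.obj X)) {X : H} (hX : Env S X) :
    Env R (A.obj X) :=
  Env.induction (Q := fun X => Env R (A.obj X)) h (fun _ z => Env.zero (A.map_isZero z))
    (fun X n _ i => (i.shift n).iso ((A.commShiftIso n).app X).symm)
    (fun T hT _ _ => Env.ext₂ _ (A.map_distinguished T hT)) hX

/-- A morphism of distinguished triangles inverted on the first two objects is inverted on the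
third. -/
theorem isIso_map₃ {T T' : Triangle H} (φ : T ⟶ T') (hT : T ∈ distTriang H)
    (hT' : T' ∈ distTriang H) (h₁ : IsIso (A.map φ.hom₁)) (h₂ : IsIso (A.map φ.hom₂)) :
    IsIso (A.map φ.hom₃) :=
  isIso₃_of_isIso₁₂ (A.mapTriangle.map φ) (A.map_distinguished T hT) (A.map_distinguished T' hT')
    h₁ h₂

theorem isIso_map_shift {H D : Type*} [Category* H] [Category* D] [HasShift H ℤ] [HasShift D ℤ]
    {A : H ⥤ D} [A.CommShift ℤ] {X Y : H} (s : X ⟶ Y) (h : IsIso (A.map s)) (n : ℤ) :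
    IsIso (A.map (s⟦n⟧')) :=
  (NatIso.isIso_map_iff (A.commShiftIso n) s).2 (inferInstanceAs (IsIso ((A.map s)⟦n⟧')))

end Bij

section Approx

variable {D₁ : Type*} [Category* D₁] [HasZeroObject D₁] [HasShift D₁ ℤ] [Preadditive D₁]
  [∀ n : ℤ, (shiftFunctor D₁ n).Additive] [Pretriangulated D₁]
  {D₂ : Type*} [Category* D₂] [HasZeroObject D₂] [HasShift D₂ ℤ] [Preadditive D₂]
  [∀ n : ℤ, (shiftFunctor D₂ n).Additive] [Pretriangulated D₂]
  {A : H ⥤ D₁} [A.CommShift ℤ] [A.IsTriangulated] {B : H ⥤ D₂} [B.CommShift ℤ] [B.IsTriangulated]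
  {J : Type*} [SemilatticeSup J] [Nonempty J] {Lo Hi : J → ObjectProperty H}

/-- `X` maps to an object of the envelope of `S` by a morphism inverted by both functors. -/
def Appr {D₁ D₂ : Type*} [Category* D₁] [Category* D₂] (A : H ⥤ D₁) (B : H ⥤ D₂)
    (S : ObjectProperty H) (X : H) : Prop :=
  ∃ (Q : H) (s : X ⟶ Q), Env S Q ∧ IsIso (A.map s) ∧ IsIso (B.map s)

/-- Approximation by high objects passes from the generators to the envelope. -/
theorem Appr.env (hLo : Monotone Lo) (hHi : Antitone Hi) (hS : ∀ X, S X → ∃ a, Env (Lo a) X)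
    (hHS : ∀ a, Hi a ≤ Env S) (h1 : ∀ a X Y, Lo a X → Hi a Y → Bij A X Y)
    (h2 : ∀ X, S X → ∀ a, Appr A B (Hi a) X) {X : H} (hX : Env S X) (a : J) :
    Appr A B (Hi a) X := by
  revert a
  refine Env.induction (Q := fun X => ∀ a, Appr A B (Hi a) X) h2
    (fun X z a => ⟨X, 𝟙 X, Env.zero z, inferInstance, inferInstance⟩) ?_ ?_ hX
  · intro X n _ h a
    obtain ⟨Q, s, hQ, hA, hB⟩ := h a
    exact ⟨Q⟦n⟧, s⟦n⟧', hQ.shift n, isIso_map_shift s hA n, isIso_map_shift s hB n⟩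
  · intro T hT h₁ h₃ i₁ i₃ a
    obtain ⟨m, w, hi⟩ : ∃ (m : T.obj₃⟦(-1 : ℤ)⟧ ⟶ T.obj₁) (w : T.obj₂ ⟶ T.obj₃⟦(-1 : ℤ)⟧⟦(1 : ℤ)⟧),
      Triangle.mk m T.mor₁ w ∈ distTriang H := exists_invRot T hT
    obtain ⟨Q₃, s₃, hQ₃, hA₃, hB₃⟩ := i₃ a
    have hA₀ := isIso_map_shift s₃ hA₃ (-1)
    have hB₀ := isIso_map_shift s₃ hB₃ (-1)
    obtain ⟨b, hb⟩ := Env.exists_level hLo hS (h₃.shift (-1))
    obtain ⟨c, hc⟩ := Env.exists_level hLo hS ((Env.le (hHS a) _ hQ₃).shift (-1))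
    obtain ⟨Q₁, s₁, hQ₁, hA₁, hB₁⟩ := i₁ (a ⊔ (b ⊔ c))
    have k₁ : Bij₀ A (Q₃⟦(-1 : ℤ)⟧) Q₁ := (Bij.env (h1 (a ⊔ (b ⊔ c)))
      (Env.mono (hLo (le_sup_right.trans le_sup_right)) _ hc) hQ₁).zero
    have k₂ : Bij₀ A (T.obj₃⟦(-1 : ℤ)⟧) Q₁ := (Bij.env (h1 (a ⊔ (b ⊔ c)))
      (Env.mono (hLo (le_sup_left.trans le_sup_right)) _ hb) hQ₁).zero
    obtain ⟨v, hv⟩ := k₁.2 (inv (A.map (s₃⟦(-1 : ℤ)⟧')) ≫ A.map m ≫ A.map s₁)
    have hc' : m ≫ s₁ = s₃⟦(-1 : ℤ)⟧' ≫ v := k₂.1 (by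
      rw [A.map_comp, A.map_comp, hv, IsIso.hom_inv_id_assoc])
    obtain ⟨Q, f, g, hQ⟩ := distinguished_cocone_triangle v
    obtain ⟨s, hs₁, hs₂⟩ := complete_distinguished_triangle_morphism _ _ hi hQ (s₃⟦(-1 : ℤ)⟧') s₁ hc'
    let φ : Triangle.mk m T.mor₁ w ⟶ Triangle.mk v f g :=
      Triangle.homMk _ _ (s₃⟦(-1 : ℤ)⟧') s₁ s hc' hs₁ hs₂
    exact ⟨Q, s, Env.ext₃ _ hQ (hQ₃.shift (-1)) (Env.mono (hHi le_sup_left) _ hQ₁),
      isIso_map₃ φ hi hQ hA₀ hA₁, isIso_map₃ φ hi hQ hB₀ hB₁⟩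

/-- The hypothesis of the Morita theorem, in the ambient category. -/
theorem hyp_env (hLo : Monotone Lo) (hHi : Antitone Hi) (hS : ∀ X, S X → ∃ a, Env (Lo a) X)
    (hHS : ∀ a, Hi a ≤ Env S) (hA : ∀ a X Y, Lo a X → Hi a Y → Bij A X Y)
    (hB : ∀ a X Y, Lo a X → Hi a Y → Bij B X Y) (h2 : ∀ X, S X → ∀ a, Appr A B (Hi a) X)
    {P Q : H} (hP : Env S P) (hQ : Env S Q) :
    ∃ (Q₁ : H) (s : Q ⟶ Q₁), Env S Q₁ ∧ IsIso (A.map s) ∧ IsIso (B.map s) ∧ Bij₀ A P Q₁ ∧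
      Bij₀ B P Q₁ := by
  obtain ⟨a, ha⟩ := Env.exists_level hLo hS hP
  obtain ⟨Q₁, s, h, iA, iB⟩ := Appr.env hLo hHi hS hHS hA h2 hQ a
  exact ⟨Q₁, s, Env.le (hHS a) _ h, iA, iB, (Bij.env (hA a) ha h).zero, (Bij.env (hB a) ha h).zero⟩

/-- The hypothesis of the Morita theorem on the full subcategory given by the envelope, for lifts
of the two functors along fully faithful functors. -/
theorem hyp_sub (hLo : Monotone Lo) (hHi : Antitone Hi) (hS : ∀ X, S X → ∃ a, Env (Lo a) X)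
    (hHS : ∀ a, Hi a ≤ Env S) (hA : ∀ a X Y, Lo a X → Hi a Y → Bij A X Y)
    (hB : ∀ a X Y, Lo a X → Hi a Y → Bij B X Y) (h2 : ∀ X, S X → ∀ a, Appr A B (Hi a) X)
    {E₁ E₂ : Type*} [Category* E₁] [Category* E₂] (i₁ : E₁ ⥤ D₁) [i₁.Full] [i₁.Faithful]
    (i₂ : E₂ ⥤ D₂) [i₂.Full] [i₂.Faithful] (A' : (Env S).FullSubcategory ⥤ E₁)
    (B' : (Env S).FullSubcategory ⥤ E₂) (eA : A' ⋙ i₁ ≅ (Env S).ι ⋙ A)
    (eB : B' ⋙ i₂ ≅ (Env S).ι ⋙ B) (P Q : (Env S).FullSubcategory) :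
    ∃ (Q₁ : (Env S).FullSubcategory) (s : Q ⟶ Q₁), IsIso (A'.map s) ∧ IsIso (B'.map s) ∧
      Function.Bijective (fun f : P ⟶ Q₁ => A'.map f) ∧
      Function.Bijective (fun f : P ⟶ Q₁ => B'.map f) := by
  obtain ⟨Q₁, s, h, iA, iB, bA, bB⟩ := hyp_env hLo hHi hS hHS hA hB h2 P.2 Q.2
  refine ⟨⟨Q₁, h⟩, ObjectProperty.homMk s, ?_, ?_, ?_, ?_⟩
  · have : IsIso (i₁.map (A'.map (ObjectProperty.homMk s : Q ⟶ ⟨Q₁, h⟩))) :=
      (NatIso.isIso_map_iff eA _).2 iA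
    exact isIso_of_fully_faithful i₁ _
  · have : IsIso (i₂.map (B'.map (ObjectProperty.homMk s : Q ⟶ ⟨Q₁, h⟩))) :=
      (NatIso.isIso_map_iff eB _).2 iB
    exact isIso_of_fully_faithful i₂ _
  · exact (((Bij₀.of_ff (Env S).ι P ⟨Q₁, h⟩).comp bA).natIso eA.symm).of_comp_right
      (Bij₀.of_ff _ _ _)
  · exact (((Bij₀.of_ff (Env S).ι P ⟨Q₁, h⟩).comp bB).natIso eB.symm).of_comp_right
      (Bij₀.of_ff _ _ _)

end Approx

end Pool.Agent.Lib.MP_d3d358_ag.Mor
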