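import Pool.Agent.Lib.MP_d3d358_ag.Mor.Retr

set_option autoImplicit false

open CategoryTheory Category Limits Pretriangulated

universe v₁ v₂ v₃ u₁ u₂ u₃

namespace Pool.Agent.Lib.MP_d3d358_ag.Mor

section Cat

variable {K : Type u₁} [Category.{v₁} K] {D₁ : Type u₂} [Category.{v₂} D₁]
  {D₂ : Type u₃} [Category.{v₃} D₂]

/-- Every object `Q` can be replaced, along a morphism that both functors invert, by an object
`Q'` such that both functors are bijective on morphisms from a given `P` to `Q'`. -/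
def Hyp (A : K ⥤ D₁) (B : K ⥤ D₂) : Prop :=
  ∀ P Q : K, ∃ (Q' : K) (s : Q ⟶ Q'), IsIso (A.map s) ∧ IsIso (B.map s) ∧
    Function.Bijective (fun v : P ⟶ Q' => A.map v) ∧ Function.Bijective (fun v : P ⟶ Q' => B.map v)

namespace Hyp

variable {A : K ⥤ D₁} {B : K ⥤ D₂} (H : Hyp A B)
include H

theorem symm : Hyp B A := fun P Q => by
  obtain ⟨Q', s, h₁, h₂, h₃, h₄⟩ := H P Q
  exact ⟨Q', s, h₂, h₁, h₄, h₃⟩

theorem roof (P Q : K) (f : A.obj P ⟶ A.obj Q) : ∃ (Q' : K) (v : P ⟶ Q') (s : Q ⟶ Q'),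
    IsIso (A.map s) ∧ IsIso (B.map s) ∧ f ≫ A.map s = A.map v := by
  obtain ⟨Q', s, h₁, h₂, h₃, -⟩ := H P Q
  obtain ⟨v, hv⟩ := h₃.2 (f ≫ A.map s)
  exact ⟨Q', v, s, h₁, h₂, hv.symm⟩

theorem roof' (P Q : K) (f : A.obj P ⟶ A.obj Q) : ∃ (Q' : K) (v : P ⟶ Q') (s : Q ⟶ Q'),
    IsIso (A.map s) ∧ f ≫ A.map s = A.map v := by
  obtain ⟨Q', v, s, h₁, -, h⟩ := H.roof P Q f
  exact ⟨Q', v, s, h₁, h⟩

theorem ker {P Q : K} {v v' : P ⟶ Q} (h : A.map v = A.map v') : B.map v = B.map v' := by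
  obtain ⟨Q', s, -, h₂, h₃, -⟩ := H P Q
  have : v ≫ s = v' ≫ s := h₃.1 (by simp only [Functor.map_comp, h])
  rw [← cancel_mono (B.map s), ← B.map_comp, ← B.map_comp, this]

theorem exists_phi {P Q : K} (f : A.obj P ⟶ A.obj Q) : ∃ g : B.obj P ⟶ B.obj Q,
    ∀ (R : K) (v : P ⟶ R) (s : Q ⟶ R), f ≫ A.map s = A.map v → g ≫ B.map s = B.map v := by
  obtain ⟨Q', v, s, h₁, h₂, h⟩ := H.roof P Q f
  refine ⟨B.map v ≫ inv (B.map s), fun R v' s' h' => ?_⟩
  obtain ⟨R', a, t, -, t₂, ht⟩ := H.roof Q' R (inv (A.map s) ≫ A.map s')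
  have e₁ : B.map (s ≫ a) = B.map (s' ≫ t) := H.ker (by
    rw [A.map_comp, A.map_comp, ← ht, assoc, IsIso.hom_inv_id_assoc])
  have e₂ : B.map (v ≫ a) = B.map (v' ≫ t) := H.ker (by
    rw [A.map_comp, A.map_comp, ← ht, ← h, ← h', assoc, assoc, assoc, IsIso.hom_inv_id_assoc])
  rw [← cancel_mono (B.map t), assoc, assoc, ← B.map_comp, ← e₁, ← B.map_comp, ← e₂, B.map_comp,
    B.map_comp, IsIso.inv_hom_id_assoc]

/-- The transfer of morphisms from the image of `A` to the image of `B`. -/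
noncomputable def phi {P Q : K} (f : A.obj P ⟶ A.obj Q) : B.obj P ⟶ B.obj Q :=
  (H.exists_phi f).choose

theorem phi_spec {P Q R : K} {f : A.obj P ⟶ A.obj Q} {v : P ⟶ R} {s : Q ⟶ R}
    (h : f ≫ A.map s = A.map v) : H.phi f ≫ B.map s = B.map v :=
  (H.exists_phi f).choose_spec R v s h

theorem phi_map {P Q : K} (v : P ⟶ Q) : H.phi (A.map v) = B.map v := by
  have := H.phi_spec (f := A.map v) (v := v) (s := 𝟙 Q) (by simp)
  simpa using this

theorem phi_id (P : K) : H.phi (𝟙 (A.obj P)) = 𝟙 (B.obj P) := by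
  rw [← A.map_id, phi_map, B.map_id]

theorem phi_comp {P Q R : K} (f : A.obj P ⟶ A.obj Q) (f' : A.obj Q ⟶ A.obj R) :
    H.phi (f ≫ f') = H.phi f ≫ H.phi f' := by
  obtain ⟨R', w, t, -, t₂, ht⟩ := H.roof Q R f'
  obtain ⟨R'', x, u, -, u₂, hu⟩ := H.roof P R' (f ≫ A.map w)
  have e₁ : H.phi f ≫ B.map (w ≫ u) = B.map x := H.phi_spec (by rw [A.map_comp, ← assoc, hu])
  have e₂ : H.phi (f ≫ f') ≫ B.map (t ≫ u) = B.map x :=
    H.phi_spec (by rw [A.map_comp, assoc, ← assoc f', ht, ← assoc, hu])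
  rw [← cancel_mono (B.map t), ← cancel_mono (B.map u), assoc, ← B.map_comp, e₂, assoc, assoc,
    ← assoc (H.phi f'), H.phi_spec ht, ← B.map_comp, e₁]

theorem symm_phi_phi {P Q : K} (f : A.obj P ⟶ A.obj Q) : H.symm.phi (H.phi f) = f := by
  obtain ⟨Q', v, s, h₁, -, h⟩ := H.roof P Q f
  rw [← cancel_mono (A.map s), H.symm.phi_spec (H.phi_spec h), h]

theorem phi_symm_phi {P Q : K} (g : B.obj P ⟶ B.obj Q) : H.phi (H.symm.phi g) = g :=
  H.symm.symm_phi_phi g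

section Lin

variable [Preadditive K] [Preadditive D₁] [Preadditive D₂] [A.Additive] [B.Additive]

theorem phi_add {P Q : K} (f f' : A.obj P ⟶ A.obj Q) : H.phi (f + f') = H.phi f + H.phi f' := by
  obtain ⟨Q', s, -, h₂, h₃, -⟩ := H P Q
  obtain ⟨v, hv⟩ := h₃.2 (f ≫ A.map s)
  obtain ⟨v', hv'⟩ := h₃.2 (f' ≫ A.map s)
  have hv : f ≫ A.map s = A.map v := hv.symm
  have hv' : f' ≫ A.map s = A.map v' := hv'.symm
  rw [← cancel_mono (B.map s), Preadditive.add_comp, H.phi_spec hv, H.phi_spec hv', ← B.map_add]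
  exact H.phi_spec (by rw [Preadditive.add_comp, hv, hv', A.map_add])

theorem phi_smul {k : Type*} [Semiring k] [Linear k K] [Linear k D₁] [Linear k D₂] [A.Linear k]
    [B.Linear k] {P Q : K} (c : k) (f : A.obj P ⟶ A.obj Q) : H.phi (c • f) = c • H.phi f := by
  obtain ⟨Q', v, s, -, h₂, h⟩ := H.roof P Q f
  rw [← cancel_mono (B.map s), Linear.smul_comp, H.phi_spec h, ← B.map_smul]
  exact H.phi_spec (by rw [Linear.smul_comp, h, A.map_smul])

end Lin

variable [IsIdempotentComplete D₂] (hA : RoofDense A)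

theorem exists_split (Z : D₁) : ∃ (Y : D₂) (ρ : Retract Y (B.obj (hA.ob Z))),
    ρ.r ≫ ρ.i = H.phi ((hA.rt Z).r ≫ (hA.rt Z).i) := by
  obtain ⟨Y, i, e, h₁, h₂⟩ := IsIdempotentComplete.idempotents_split _
    (H.phi ((hA.rt Z).r ≫ (hA.rt Z).i)) (by
      rw [← phi_comp, assoc, ← assoc (hA.rt Z).i, (hA.rt Z).retract, id_comp])
  exact ⟨Y, ⟨i, e, h₁⟩, h₂⟩

/-- The object part of the extended functor. -/
noncomputable def eob (Z : D₁) : D₂ := (H.exists_split hA Z).choose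

/-- The chosen splitting. -/
noncomputable def ert (Z : D₁) : Retract (H.eob hA Z) (B.obj (hA.ob Z)) :=
  (H.exists_split hA Z).choose_spec.choose

@[reassoc]
theorem ert_spec (Z : D₁) :
    (H.ert hA Z).r ≫ (H.ert hA Z).i = H.phi ((hA.rt Z).r ≫ (hA.rt Z).i) :=
  (H.exists_split hA Z).choose_spec.choose_spec

@[reassoc]
theorem ert_left (Z : D₁) {Q : K} (f : Z ⟶ A.obj Q) :
    (H.ert hA Z).r ≫ (H.ert hA Z).i ≫ H.phi ((hA.rt Z).r ≫ f) = H.phi ((hA.rt Z).r ≫ f) := by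
  rw [ert_spec_assoc, ← phi_comp, assoc, ← assoc (hA.rt Z).i, (hA.rt Z).retract, id_comp]

@[reassoc]
theorem ert_right (Z : D₁) {P : K} (f : A.obj P ⟶ Z) :
    H.phi (f ≫ (hA.rt Z).i) ≫ (H.ert hA Z).r ≫ (H.ert hA Z).i = H.phi (f ≫ (hA.rt Z).i) := by
  rw [ert_spec, ← phi_comp, assoc, ← assoc (hA.rt Z).i, (hA.rt Z).retract, id_comp]

/-- The functor from `D₁` to `D₂`. -/
noncomputable def ext : D₁ ⥤ D₂ where
  obj := H.eob hA
  map {Z W} g := (H.ert hA Z).i ≫ H.phi ((hA.rt Z).r ≫ g ≫ (hA.rt W).i) ≫ (H.ert hA W).r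
  map_id Z := by
    rw [id_comp, ← ert_spec, assoc, (H.ert hA Z).retract, comp_id, (H.ert hA Z).retract]
  map_comp {Z W V} g g' := by
    simp only [assoc]
    rw [ert_left_assoc, ← assoc (H.phi _) (H.phi _), ← phi_comp]
    simp only [assoc]
    rw [← assoc (hA.rt W).i, (hA.rt W).retract, id_comp]

/-- The chosen splitting, typed with the functor. -/
noncomputable def er (Z : D₁) : Retract ((H.ext hA).obj Z) (B.obj (hA.ob Z)) := H.ert hA Z

@[reassoc]
theorem er_spec (Z : D₁) :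
    (H.er hA Z).r ≫ (H.er hA Z).i = H.phi ((hA.rt Z).r ≫ (hA.rt Z).i) := H.ert_spec hA Z

theorem ext_map {Z W : D₁} (g : Z ⟶ W) : (H.ext hA).map g =
    (H.er hA Z).i ≫ H.phi ((hA.rt Z).r ≫ g ≫ (hA.rt W).i) ≫ (H.er hA W).r := rfl

theorem r_ext_map_i {Z W : D₁} (g : Z ⟶ W) :
    (H.er hA Z).r ≫ (H.ext hA).map g ≫ (H.er hA W).i =
      H.phi ((hA.rt Z).r ≫ g ≫ (hA.rt W).i) := by
  rw [ext_map]
  simp only [assoc]
  rw [er_spec, er_spec_assoc, ← phi_comp, ← phi_comp]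
  simp only [assoc, Retract.retract, comp_id, Retract.retract_assoc]

instance : (H.ext hA).Faithful where
  map_injective {Z W g g'} h := by
    have h₁ : H.phi ((hA.rt Z).r ≫ g ≫ (hA.rt W).i) = H.phi ((hA.rt Z).r ≫ g' ≫ (hA.rt W).i) := by
      rw [← r_ext_map_i, ← r_ext_map_i, h]
    have h₂ := congrArg (fun x => (hA.rt Z).i ≫ H.symm.phi x ≫ (hA.rt W).r) h₁
    simpa only [symm_phi_phi, assoc, Retract.retract, comp_id, Retract.retract_assoc] using h₂

instance : (H.ext hA).Full where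
  map_surjective {Z W} h := by
    refine ⟨(hA.rt Z).i ≫ H.symm.phi ((H.er hA Z).r ≫ h ≫ (H.er hA W).i) ≫ (hA.rt W).r, ?_⟩
    have e : (hA.rt Z).r ≫ ((hA.rt Z).i ≫ H.symm.phi ((H.er hA Z).r ≫ h ≫ (H.er hA W).i) ≫
        (hA.rt W).r) ≫ (hA.rt W).i = ((hA.rt Z).r ≫ (hA.rt Z).i) ≫
          H.symm.phi ((H.er hA Z).r ≫ h ≫ (H.er hA W).i) ≫ ((hA.rt W).r ≫ (hA.rt W).i) := by
      simp only [assoc]
    rw [ext_map, e, phi_comp, phi_comp, phi_symm_phi, ← er_spec, ← er_spec]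
    simp only [assoc, Retract.retract, comp_id, Retract.retract_assoc]

/-- The component of the isomorphism between the composite and `B`. -/
noncomputable def extIsoApp (X : K) : (H.ext hA).obj (A.obj X) ≅ B.obj X where
  hom := (H.er hA (A.obj X)).i ≫ H.phi (hA.rt (A.obj X)).r
  inv := H.phi (hA.rt (A.obj X)).i ≫ (H.er hA (A.obj X)).r
  hom_inv_id := by
    rw [assoc, ← assoc (H.phi _), ← phi_comp, ← er_spec, assoc, (H.er hA _).retract, comp_id]
    exact (H.er hA _).retract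
  inv_hom_id := by
    rw [assoc, er_spec_assoc, ← phi_comp, ← phi_comp, assoc, (hA.rt _).retract, comp_id,
      (hA.rt _).retract, phi_id]

@[reassoc]
theorem ext_map_iso {P Q : K} (f : A.obj P ⟶ A.obj Q) :
    (H.ext hA).map f ≫ (H.extIsoApp hA Q).hom = (H.extIsoApp hA P).hom ≫ H.phi f := by
  change ((H.er hA _).i ≫ H.phi _ ≫ (H.er hA _).r) ≫ (H.er hA _).i ≫ H.phi _ =
    ((H.er hA _).i ≫ H.phi _) ≫ H.phi f
  simp only [assoc]
  rw [er_spec_assoc, ← phi_comp, ← phi_comp, ← phi_comp]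
  simp only [assoc, Retract.retract, comp_id]

/-- The extended functor composed with `A` is `B`. -/
noncomputable def extIso : A ⋙ H.ext hA ≅ B :=
  NatIso.ofComponents (fun X => H.extIsoApp hA X) (fun {X Y} v => by
    change (H.ext hA).map (A.map v) ≫ _ = _
    rw [ext_map_iso, phi_map])

theorem essSurj [IsIdempotentComplete D₁]
    (hB : ∀ W : D₂, ∃ P : K, Nonempty (Retract W (B.obj P))) : (H.ext hA).EssSurj where
  mem_essImage W := by
    obtain ⟨P, ⟨ρ⟩⟩ := hB W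
    obtain ⟨Z, a, b, h₁, h₂⟩ := IsIdempotentComplete.idempotents_split _ (H.symm.phi (ρ.r ≫ ρ.i))
      (by rw [← phi_comp, assoc, ← assoc ρ.i, ρ.retract, id_comp])
    have e := H.ext_map_iso hA (b ≫ a)
    rw [h₂, phi_symm_phi, ← h₂] at e
    refine ⟨Z, ⟨{ hom := (H.ext hA).map a ≫ (H.extIsoApp hA P).hom ≫ ρ.r
                  inv := ρ.i ≫ (H.extIsoApp hA P).inv ≫ (H.ext hA).map b
                  hom_inv_id := ?_
                  inv_hom_id := ?_ }⟩⟩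
    · simp only [assoc]
      rw [← assoc ρ.r, ← assoc (H.extIsoApp hA P).hom, ← e, assoc, Iso.hom_inv_id_assoc,
        ← Functor.map_comp, ← Functor.map_comp, assoc, h₁, comp_id, h₁,
        CategoryTheory.Functor.map_id]
    · simp only [assoc]
      rw [← Functor.map_comp_assoc, ← assoc ((H.ext hA).map _), e, assoc, Iso.inv_hom_id_assoc,
        assoc, ρ.retract, comp_id, ρ.retract]

end Hyp

end Cat

variable {k : Type*} [Semiring k]
  {K : Type u₁} [Category.{v₁} K] [HasZeroObject K] [HasShift K ℤ] [Preadditive K]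
  [∀ n : ℤ, (shiftFunctor K n).Additive] [Pretriangulated K] [Linear k K]
  {D₁ : Type u₂} [Category.{v₂} D₁] [HasZeroObject D₁] [HasShift D₁ ℤ] [Preadditive D₁]
  [∀ n : ℤ, (shiftFunctor D₁ n).Additive] [Pretriangulated D₁] [Linear k D₁]
  {D₂ : Type u₃} [Category.{v₃} D₂] [HasZeroObject D₂] [HasShift D₂ ℤ] [Preadditive D₂]
  [∀ n : ℤ, (shiftFunctor D₂ n).Additive] [Pretriangulated D₂] [Linear k D₂]

/-- The abstract Morita theorem. -/
theorem morCore [IsIdempotentComplete D₁] [IsIdempotentComplete D₂]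
    (A : K ⥤ D₁) [A.CommShift ℤ] [A.IsTriangulated] [A.Linear k]
    (B : K ⥤ D₂) [B.CommShift ℤ] [B.IsTriangulated] [B.Linear k] (H : Hyp A B)
    (hA : ∀ Z : D₁, ∃ P : K, Nonempty (Retract Z (A.obj P)))
    (hB : ∀ W : D₂, ∃ P : K, Nonempty (Retract W (B.obj P))) :
    ∃ (e : D₁ ⥤ D₂) (_ : e.CommShift ℤ), e.IsEquivalence ∧ e.IsTriangulated ∧ e.Additive ∧
      e.Linear k ∧ Nonempty (A ⋙ e ≅ B) := by
  have hA' : RoofDense A := ⟨H.roof', hA⟩
  have hadd : (H.ext hA').Additive := ⟨fun {Z W g g'} => by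
    simp only [Hyp.ext_map, Preadditive.add_comp, Preadditive.comp_add, H.phi_add]⟩
  have hlin : (H.ext hA').Linear k := ⟨fun {Z W} g c => by
    simp only [Hyp.ext_map, Linear.smul_comp, Linear.comp_smul, H.phi_smul]⟩
  have hess := H.essSurj hA' hB
  let _ : (H.ext hA').CommShift ℤ := hA'.commShift (H.extIso hA')
  have hcs : NatTrans.CommShift (H.extIso hA').hom ℤ := hA'.commShift_iso (H.extIso hA')
  have htr : (A ⋙ H.ext hA').IsTriangulated :=
    (Functor.isTriangulated_iff_of_iso (H.extIso hA')).2 inferInstance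
  exact ⟨H.ext hA', inferInstance, {}, hA'.isTriangulated _, hadd, hlin, ⟨H.extIso hA'⟩⟩

end Pool.Agent.Lib.MP_d3d358_ag.Mor
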