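import Mathlib

set_option autoImplicit false

open CategoryTheory Category Limits Functor

universe v₁ v₂ v₃ u₁ u₂ u₃

namespace Pool.Agent.Lib.MP_d3d358_ag.Mor

variable {C : Type u₁} [Category.{v₁} C] {D : Type u₂} [Category.{v₂} D]
  {E : Type u₃} [Category.{v₃} E]

/-- Every morphism between objects in the image of `L` is a left fraction, and every object is a
retract of an object in the image. -/
structure RoofDense (L : C ⥤ D) : Prop where
  roof : ∀ (P Q : C) (f : L.obj P ⟶ L.obj Q), ∃ (Q' : C) (v : P ⟶ Q') (s : Q ⟶ Q'),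
    IsIso (L.map s) ∧ f ≫ L.map s = L.map v
  dense : ∀ Z : D, ∃ P : C, Nonempty (Retract Z (L.obj P))

namespace RoofDense

variable {L : C ⥤ D} (hL : RoofDense L)

/-- A chosen object whose image has `Z` as a retract. -/
noncomputable def ob (Z : D) : C := (hL.dense Z).choose

/-- The chosen retraction. -/
noncomputable def rt (Z : D) : Retract Z (L.obj (hL.ob Z)) := (hL.dense Z).choose_spec.some

include hL in
theorem natTrans_ext {F G : D ⥤ E} {τ τ' : F ⟶ G}
    (h : ∀ X : C, τ.app (L.obj X) = τ'.app (L.obj X)) : τ = τ' := by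
  ext Z
  obtain ⟨P, ⟨ρ⟩⟩ := hL.dense Z
  calc τ.app Z = τ.app Z ≫ G.map ρ.i ≫ G.map ρ.r := by
        rw [← G.map_comp, ρ.retract, G.map_id, comp_id]
    _ = τ'.app Z ≫ G.map ρ.i ≫ G.map ρ.r := by
        rw [← τ.naturality_assoc, ← τ'.naturality_assoc, h]
    _ = τ'.app Z := by rw [← G.map_comp, ρ.retract, G.map_id, comp_id]

include hL in
theorem nat {F G : D ⥤ E} (τ : L ⋙ F ⟶ L ⋙ G) {P Q : C} (f : L.obj P ⟶ L.obj Q) :
    F.map f ≫ τ.app Q = τ.app P ≫ G.map f := by
  obtain ⟨Q', v, s, hs, h⟩ := hL.roof P Q f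
  have h1 : F.map (L.map s) ≫ τ.app Q' = τ.app Q ≫ G.map (L.map s) := τ.naturality s
  have h2 : F.map (L.map v) ≫ τ.app Q' = τ.app P ≫ G.map (L.map v) := τ.naturality v
  rw [← cancel_mono (G.map (L.map s)), assoc, assoc, ← h1, ← G.map_comp, h, ← h2,
    ← F.map_comp_assoc, h]

/-- Extension of a natural transformation along `L`. -/
noncomputable def lift {F G : D ⥤ E} (τ : L ⋙ F ⟶ L ⋙ G) : F ⟶ G where
  app Z := F.map (hL.rt Z).i ≫ τ.app (hL.ob Z) ≫ G.map (hL.rt Z).r
  naturality Z W g := by
    have h := hL.nat τ ((hL.rt Z).r ≫ g ≫ (hL.rt W).i)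
    have e : g ≫ (hL.rt W).i = (hL.rt Z).i ≫ (hL.rt Z).r ≫ g ≫ (hL.rt W).i := by
      rw [← assoc (hL.rt Z).i, (hL.rt Z).retract, id_comp]
    rw [← F.map_comp_assoc, e, F.map_comp, assoc, ← assoc (F.map (_ ≫ _ ≫ _)), h, assoc, assoc,
      assoc, ← G.map_comp, ← G.map_comp, assoc, assoc, (hL.rt W).retract, comp_id]

theorem lift_app {F G : D ⥤ E} (τ : L ⋙ F ⟶ L ⋙ G) (X : C) :
    (hL.lift τ).app (L.obj X) = τ.app X := by
  have h := hL.nat τ (hL.rt (L.obj X)).i
  change F.map _ ≫ τ.app _ ≫ G.map _ = _
  rw [← assoc, h, assoc, ← G.map_comp, (hL.rt (L.obj X)).retract, G.map_id]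
  exact comp_id _

/-- Extension of a natural isomorphism along `L`. -/
noncomputable def liftIso {F G : D ⥤ E} (τ : L ⋙ F ≅ L ⋙ G) : F ≅ G where
  hom := hL.lift τ.hom
  inv := hL.lift τ.inv
  hom_inv_id := hL.natTrans_ext fun X => by
    rw [NatTrans.comp_app, lift_app, lift_app]
    exact τ.hom_inv_id_app X
  inv_hom_id := hL.natTrans_ext fun X => by
    rw [NatTrans.comp_app, lift_app, lift_app]
    exact τ.inv_hom_id_app X

section Shift

variable {A : Type*} [AddMonoid A] [HasShift C A] [HasShift D A] [HasShift E A] [L.CommShift A]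
  {F : C ⥤ E} [F.CommShift A] {F' : D ⥤ E} (ε : L ⋙ F' ≅ F)

/-- The commutation isomorphism of the extended functor. -/
noncomputable def shIso (a : A) : shiftFunctor D a ⋙ F' ≅ F' ⋙ shiftFunctor E a :=
  hL.liftIso ((Functor.associator _ _ _).symm ≪≫
        isoWhiskerRight (L.commShiftIso a).symm F' ≪≫
        Functor.associator _ _ _ ≪≫
        isoWhiskerLeft _ ε ≪≫
        F.commShiftIso a ≪≫
        isoWhiskerRight ε.symm _ ≪≫ Functor.associator _ _ _)

set_option backward.defeqAttrib.useBackward true in
@[reassoc]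
theorem shIso_hom_app (a : A) (X : C) :
    (hL.shIso ε a).hom.app (L.obj X) =
      F'.map ((L.commShiftIso a).inv.app X) ≫ ε.hom.app (X⟦a⟧) ≫
        (F.commShiftIso a).hom.app X ≫ (shiftFunctor E a).map (ε.inv.app X) := by
  simp [shIso, liftIso, lift_app]

set_option backward.defeqAttrib.useBackward true in
/-- The extended functor commutes with the shift. -/
@[instance_reducible]
noncomputable def commShift : F'.CommShift A where
  commShiftIso := hL.shIso ε
  commShiftIso_zero := by
    ext1
    apply hL.natTrans_ext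
    intro X
    dsimp
    simp only [shIso_hom_app, comp_obj, commShiftIso_zero,
      CommShift.isoZero_inv_app, map_comp, CommShift.isoZero_hom_app, Category.assoc,
      ← NatTrans.naturality_assoc, ← NatTrans.naturality]
    dsimp
    simp only [← Functor.map_comp_assoc, ← Functor.map_comp,
      Iso.inv_hom_id_app, id_obj, CategoryTheory.Functor.map_id, Category.id_comp,
      Iso.hom_inv_id_app_assoc]
  commShiftIso_add a b := by
    ext1
    apply hL.natTrans_ext
    intro X
    dsimp
    simp only [shIso_hom_app, comp_obj, commShiftIso_add,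
      CommShift.isoAdd_inv_app, map_comp, CommShift.isoAdd_hom_app, Category.assoc]
    congr 1
    rw [← cancel_epi (F'.map ((shiftFunctor D b).map ((L.commShiftIso a).hom.app X))),
      ← F'.map_comp_assoc, ← map_comp, Iso.hom_inv_id_app, CategoryTheory.Functor.map_id,
      CategoryTheory.Functor.map_id, Category.id_comp]
    conv_lhs =>
      erw [← NatTrans.naturality_assoc]
      dsimp
      rw [← Functor.map_comp_assoc, ← map_comp_assoc, Category.assoc,
        ← map_comp, Iso.inv_hom_id_app]
      dsimp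
      rw [CategoryTheory.Functor.map_id, Category.comp_id, ← NatTrans.naturality]
      dsimp
    conv_rhs =>
      erw [← NatTrans.naturality_assoc]
      dsimp
      rw [← Functor.map_comp_assoc, ← map_comp, Iso.hom_inv_id_app]
      dsimp
      rw [CategoryTheory.Functor.map_id, CategoryTheory.Functor.map_id, Category.id_comp,
        shIso_hom_app,
        Category.assoc, Category.assoc, Category.assoc, ← map_comp_assoc,
        Iso.inv_hom_id_app, CategoryTheory.Functor.map_id, Category.id_comp]

set_option backward.defeqAttrib.useBackward true in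
theorem commShift_iso : letI := hL.commShift (A := A) ε
    NatTrans.CommShift ε.hom A := by
  let _ := hL.commShift (A := A) ε
  constructor
  intro a
  ext X
  have h : (F'.commShiftIso a).hom.app (L.obj X) = _ := hL.shIso_hom_app ε a X
  simp only [NatTrans.comp_app, Functor.whiskerRight_app, Functor.whiskerLeft_app,
    Functor.commShiftIso_comp_hom_app, h,
    Category.assoc, ← Functor.map_comp, ← Functor.map_comp_assoc,
    Iso.hom_inv_id_app, CategoryTheory.Functor.map_id, Iso.inv_hom_id_app,
    Category.comp_id, Category.id_comp, Functor.comp_obj]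

end Shift

end RoofDense

end Pool.Agent.Lib.MP_d3d358_ag.Mor
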