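import Mathlib

set_option autoImplicit false

open CategoryTheory Category Limits Pretriangulated Triangulated

universe w v u

namespace Pool.Agent.Lib.MP_d3d358_ag.Mor

section Pre

variable {C : Type u} [Category.{v} C] [HasZeroObject C] [HasShift C ℤ] [Preadditive C]
  [∀ n : ℤ, (shiftFunctor C n).Additive] [Pretriangulated C]

theorem sq_zero_of_ends {T : Triangle C} (hT : T ∈ distTriang C) (g : T.obj₂ ⟶ T.obj₂)
    (h₁ : T.mor₁ ≫ g = 0) (h₂ : g ≫ T.mor₂ = 0) : g ≫ g = 0 := by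
  obtain ⟨h, hh⟩ := T.yoneda_exact₂ hT g h₁
  calc g ≫ g = g ≫ T.mor₂ ≫ h := by rw [← hh]
    _ = 0 := by rw [← assoc, h₂, zero_comp]

set_option backward.isDefEq.respectTransparency false in
/-- An idempotent endomorphism of a distinguished triangle which splits on the two ends splits
in the middle, and the three images form a distinguished triangle. -/
theorem split_middle {T : Triangle C} (hT : T ∈ distTriang C) (φ : T ⟶ T)
    (hφ : φ.hom₂ ≫ φ.hom₂ = φ.hom₂)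
    {A B : C} (iA : A ⟶ T.obj₁) (pA : T.obj₁ ⟶ A) (hA : iA ≫ pA = 𝟙 A) (hA' : pA ≫ iA = φ.hom₁)
    (iB : B ⟶ T.obj₃) (pB : T.obj₃ ⟶ B) (hB : iB ≫ pB = 𝟙 B) (hB' : pB ≫ iB = φ.hom₃) :
    ∃ (Z : C) (f : A ⟶ Z) (g : Z ⟶ B) (h : B ⟶ A⟦(1 : ℤ)⟧), Triangle.mk f g h ∈ distTriang C ∧
      ∃ (i : Z ⟶ T.obj₂) (p : T.obj₂ ⟶ Z), i ≫ p = 𝟙 Z ∧ p ≫ i = φ.hom₂ := by
  obtain ⟨Z, f, g, hZ⟩ := distinguished_cocone_triangle₂ (iB ≫ T.mor₃ ≫ pA⟦(1 : ℤ)⟧')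
  refine ⟨Z, f, g, _, hZ, ?_⟩
  have c3 := φ.comm₃
  obtain ⟨i₀, hi₁, hi₂⟩ : ∃ i₀ : Z ⟶ T.obj₂, f ≫ i₀ = iA ≫ T.mor₁ ∧ g ≫ iB = i₀ ≫ T.mor₂ :=
    complete_distinguished_triangle_morphism₂ _ _ hZ hT iA iB (by
    change (iB ≫ T.mor₃ ≫ pA⟦(1 : ℤ)⟧') ≫ iA⟦(1 : ℤ)⟧' = iB ≫ T.mor₃
    rw [assoc, assoc, ← Functor.map_comp, hA', c3, ← hB', ← assoc iB, ← assoc iB, hB, id_comp])
  obtain ⟨p₀, hp₁, hp₂⟩ : ∃ p₀ : T.obj₂ ⟶ Z, T.mor₁ ≫ p₀ = pA ≫ f ∧ T.mor₂ ≫ pB = p₀ ≫ g :=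
    complete_distinguished_triangle_morphism₂ _ _ hT hZ pA pB (by
    change T.mor₃ ≫ pA⟦(1 : ℤ)⟧' = pB ≫ (iB ≫ T.mor₃ ≫ pA⟦(1 : ℤ)⟧')
    rw [← assoc pB, hB', ← assoc, ← c3, assoc, ← Functor.map_comp, ← hA', assoc, hA, comp_id])
  have c1 := φ.comm₁
  have c2 := φ.comm₂
  have hu₁ : f ≫ (i₀ ≫ φ.hom₂ ≫ p₀) = f := by
    rw [← assoc, hi₁, assoc, ← assoc T.mor₁, c1, assoc, hp₁, ← hA', assoc, ← assoc iA, hA, id_comp,
      ← assoc, hA, id_comp]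
  have hu₂ : (i₀ ≫ φ.hom₂ ≫ p₀) ≫ g = g := by
    rw [assoc, assoc, ← hp₂, ← assoc φ.hom₂, ← c2, assoc, ← assoc, ← hi₂, assoc, ← hB']
    simp only [assoc, hB, comp_id]
  let ψ : Triangle.mk f g (iB ≫ T.mor₃ ≫ pA⟦(1 : ℤ)⟧') ⟶
      Triangle.mk f g (iB ≫ T.mor₃ ≫ pA⟦(1 : ℤ)⟧') :=
    { hom₁ := 𝟙 _, hom₂ := i₀ ≫ φ.hom₂ ≫ p₀, hom₃ := 𝟙 _
      comm₁ := hu₁.trans (id_comp f).symm
      comm₂ := (comp_id g).trans hu₂.symm
      comm₃ := by simp }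
  have hiso : IsIso (i₀ ≫ φ.hom₂ ≫ p₀) :=
    isIso₂_of_isIso₁₃ ψ hZ hZ (IsIso.id _) (IsIso.id _)
  set u := i₀ ≫ φ.hom₂ ≫ p₀ with hu
  have hfu : f ≫ inv u = f := by rw [IsIso.comp_inv_eq, hu₁]
  have hug : inv u ≫ g = g := by rw [IsIso.inv_comp_eq, hu₂]
  have hip : (i₀ ≫ φ.hom₂) ≫ (φ.hom₂ ≫ p₀ ≫ inv u) = 𝟙 Z := by
    rw [assoc, ← assoc φ.hom₂, hφ, ← assoc φ.hom₂, ← assoc, ← hu, IsIso.hom_inv_id]
  refine ⟨i₀ ≫ φ.hom₂, φ.hom₂ ≫ p₀ ≫ inv u, hip, ?_⟩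
  set i := i₀ ≫ φ.hom₂ with hi
  set p := φ.hom₂ ≫ p₀ ≫ inv u with hp
  have hei : i ≫ φ.hom₂ = i := by rw [hi, assoc, hφ]
  have hep : φ.hom₂ ≫ p = p := by rw [hp, ← assoc, hφ]
  have h₁ : T.mor₁ ≫ (φ.hom₂ - p ≫ i) = 0 := by
    rw [Preadditive.comp_sub, sub_eq_zero, hp, hi]
    simp only [assoc]
    rw [← assoc T.mor₁ φ.hom₂ (p₀ ≫ _), c1, assoc, ← assoc T.mor₁ p₀, hp₁, assoc, ← assoc f, hfu,
      ← assoc f, hi₁, assoc, c1, ← hA']
    simp only [assoc, reassoc_of% hA]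
  have h₂ : (φ.hom₂ - p ≫ i) ≫ T.mor₂ = 0 := by
    rw [Preadditive.sub_comp, sub_eq_zero, hp, hi]
    simp only [assoc]
    rw [← c2, ← assoc i₀, ← hi₂, assoc, ← assoc (inv u), hug, ← assoc p₀, ← hp₂, assoc,
      ← assoc φ.hom₂, ← c2, ← hB']
    simp only [assoc, reassoc_of% hB]
  have h₃ := sq_zero_of_ends hT _ h₁ h₂
  have h₄ : (φ.hom₂ - p ≫ i) ≫ (φ.hom₂ - p ≫ i) = φ.hom₂ - p ≫ i := by
    simp only [Preadditive.comp_sub, Preadditive.sub_comp, assoc, hφ, hei, reassoc_of% hep,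
      reassoc_of% hip, sub_self, sub_zero]
  rw [h₄, sub_eq_zero] at h₃
  exact h₃.symm

end Pre

section Der

variable {A : Type u} [Category.{v} A] [Abelian A] [HasDerivedCategory.{w} A]

open DerivedCategory

theorem split_of_heart (n : ℤ) (X : DerivedCategory A) [X.IsGE n] [X.IsLE n] (p : X ⟶ X)
    (hp : p ≫ p = p) :
    ∃ (Y : DerivedCategory A) (i : Y ⟶ X) (e : X ⟶ Y), i ≫ e = 𝟙 Y ∧ e ≫ i = p := by
  obtain ⟨H, ⟨ε⟩⟩ := exists_iso_singleFunctor_obj_of_isGE_of_isLE X n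
  obtain ⟨q, hq⟩ := (singleFunctor A n).map_surjective (ε.inv ≫ p ≫ ε.hom)
  have hqq : q ≫ q = q := (singleFunctor A n).map_injective (by
    rw [Functor.map_comp, hq]
    simp only [assoc, Iso.hom_inv_id_assoc, reassoc_of% hp])
  obtain ⟨Y, i, e, h₁, h₂⟩ := IsIdempotentComplete.idempotents_split H q hqq
  refine ⟨(singleFunctor A n).obj Y, (singleFunctor A n).map i ≫ ε.inv,
    ε.hom ≫ (singleFunctor A n).map e, ?_, ?_⟩
  · simp only [assoc, Iso.inv_hom_id_assoc, ← Functor.map_comp, h₁, CategoryTheory.Functor.map_id]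
  · rw [assoc, ← assoc ((singleFunctor A n).map e), ← Functor.map_comp, h₂, hq]
    simp

theorem split_of_bounded (a : ℤ) (m : ℕ) : ∀ (X : DerivedCategory A) (_ : X.IsGE a)
    (_ : X.IsLE (a + m)) (p : X ⟶ X) (_ : p ≫ p = p),
    ∃ (Y : DerivedCategory A) (i : Y ⟶ X) (e : X ⟶ Y), i ≫ e = 𝟙 Y ∧ e ≫ i = p := by
  induction m with
  | zero =>
    intro X h₁ h₂ p hp
    have : X.IsLE a := by simpa using h₂
    exact split_of_heart a X p hp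
  | succ m ih =>
    intro X h₁ h₂ p hp
    let t : TStructure (DerivedCategory A) := TStructure.t
    let b : ℤ := a + m + 1
    have h₂' : t.IsLE X b := by
      have : a + ((m + 1 : ℕ) : ℤ) = b := by push_cast; ring
      rw [← this]; exact h₂
    have h₁' : t.IsGE X a := h₁
    obtain ⟨Y₁, i₁, e₁, hi₁, he₁⟩ := ih ((t.truncLT b).obj X)
      (by change t.IsGE _ a; infer_instance)
      (t.isLE_truncLT_obj X b (a + m) (by omega)) ((t.truncLT b).map p)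
      (by rw [← Functor.map_comp, hp])
    have : DerivedCategory.IsGE ((t.truncGE b).obj X) b := by change t.IsGE _ b; infer_instance
    have : DerivedCategory.IsLE ((t.truncGE b).obj X) b := by change t.IsLE _ b; infer_instance
    obtain ⟨Y₃, i₃, e₃, hi₃, he₃⟩ := split_of_heart b ((t.truncGE b).obj X) ((t.truncGE b).map p)
      (by rw [← Functor.map_comp, hp])
    obtain ⟨Z, -, -, -, -, i, e, h₁, h₂⟩ := split_middle (t.triangleLTGE_distinguished b X)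
      ((t.triangleLTGE b).map p) hp i₁ e₁ hi₁ he₁ i₃ e₃ hi₃ he₃
    exact ⟨Z, i, e, h₁, h₂⟩

/-- The bounded derived category of an abelian category is idempotent complete. -/
theorem bounded_idempotentComplete : IsIdempotentComplete (DerivedCategory.Bounded A) := by
  refine ⟨fun X p hp => ?_⟩
  obtain ⟨⟨a, ha⟩, ⟨b, hb⟩⟩ := X.property
  have hb' : X.obj.IsLE (a + ((b - a).toNat : ℕ)) :=
    TStructure.t.isLE_of_le _ b _ (by omega)
  obtain ⟨Y, i, e, h₁, h₂⟩ := split_of_bounded a (b - a).toNat X.obj ha hb' p.hom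
    (congrArg (fun q => q.hom) hp)
  have hYa : Y.IsGE a := by
    rw [DerivedCategory.isGE_iff]
    intro j hj
    have := X.obj.isZero_of_isGE a j hj (hX := ha)
    rw [IsZero.iff_id_eq_zero, ← CategoryTheory.Functor.map_id, ← h₁, Functor.map_comp,
      this.eq_of_tgt ((homologyFunctor A j).map i) 0, zero_comp]
  have hYb : Y.IsLE b := by
    rw [DerivedCategory.isLE_iff]
    intro j hj
    have := X.obj.isZero_of_isLE b j hj (hX := hb)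
    rw [IsZero.iff_id_eq_zero, ← CategoryTheory.Functor.map_id, ← h₁, Functor.map_comp,
      this.eq_of_tgt ((homologyFunctor A j).map i) 0, zero_comp]
  refine ⟨⟨Y, ⟨a, hYa⟩, ⟨b, hYb⟩⟩, ObjectProperty.homMk i, ObjectProperty.homMk e, ?_, ?_⟩
  · ext; exact h₁
  · ext; exact h₂

end Der

end Pool.Agent.Lib.MP_d3d358_ag.Mor

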