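import Pool.Agent.Lib.MP_d3d358_ag.Mor.Sing
import Pool.Agent.Lib.MP_d3d358_ag.Hom.Defs

/-! The Morita theorem in the form used for theta bundles. -/

set_option autoImplicit false

namespace Pool.Agent.Lib.MP_d3d358_ag.Th

open CategoryTheory Limits Pretriangulated

theorem mor {P : Type 1} [Category.{0} P] [Preadditive P] [HasZeroObject P] [HasBinaryBiproducts P]
    [Linear ℂ P] {A A' : Type 1} [Category.{0} A] [Abelian A] [Linear ℂ A]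
    [HasDerivedCategory.{1} A] [Category.{0} A'] [Abelian A'] [Linear ℂ A']
    [HasDerivedCategory.{1} A'] (α : P ⥤ A) [α.Additive] [α.Linear ℂ] (β : P ⥤ A') [β.Additive]
    [β.Linear ℂ] (Lo Hi : ℝ → ObjectProperty P) (hLo : Monotone Lo) (hHi : Antitone Hi)
    (h0 : ∀ X, ∃ a, Lo a X)
    (h1 : ∀ a X Y, Lo a X → Hi a Y →
      Mor.Bij (DF α) (sing X) (sing Y) ∧ Mor.Bij (DF β) (sing X) (sing Y))
    (h2 : ∀ X a, Mor.Appr (DF α) (DF β) (sg (Hi a)) (sing X))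
    (h3 : ∀ Z, DerivedCategory.TStructure.t.bounded Z → ObjectProperty.triangEnvelope
      (fun W => ∃ Y, En ⊤ Y ∧ Nonempty (Retract W ((DF α).obj Y))) Z)
    (h4 : ∀ Z, DerivedCategory.TStructure.t.bounded Z → ObjectProperty.triangEnvelope
      (fun W => ∃ Y, En ⊤ Y ∧ Nonempty (Retract W ((DF β).obj Y))) Z) :
    ∃ (F : DerivedCategory.Bounded A ⥤ DerivedCategory.Bounded A') (_ : F.CommShift ℤ),
      F.IsEquivalence ∧ F.IsTriangulated ∧ F.Linear ℂ := by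
  obtain ⟨O, -⟩ := HasZeroObject.zero (C := P)
  have sm : ∀ {S S' : ObjectProperty P}, S ≤ S' → sg S ≤ sg S' :=
    fun h _ ⟨X, hX, e⟩ => ⟨X, h X hX, e⟩
  have mLo : Monotone fun a => sg (Lo a) := fun _ _ h => sm (hLo h)
  have mHi : Antitone fun a => sg (Hi a) := fun _ _ h => sm (hHi h)
  have l₀ : ∀ X, sg (⊤ : ObjectProperty P) X → ∃ a, Mor.Env (sg (Lo a)) X := by
    rintro _ ⟨X, -, rfl⟩
    obtain ⟨a, ha⟩ := h0 X
    exact ⟨a, Mor.Env.of ⟨X, ha, rfl⟩⟩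
  have lev : ∀ {S : ObjectProperty P} {Z : HK P}, En S Z → ∃ a, En (Lo a) Z := fun h =>
    Mor.Env.exists_level mLo l₀ (Mor.Env.mono (sm le_top) _ h)
  have kα : ∀ a X Y, sg (Lo a) X → sg (Hi a) Y → Mor.Bij (DF α) X Y := by
    rintro a _ _ ⟨X, hX, rfl⟩ ⟨Y, hY, rfl⟩
    exact (h1 a X Y hX hY).1
  have kβ : ∀ a X Y, sg (Lo a) X → sg (Hi a) Y → Mor.Bij (DF β) X Y := by
    rintro a _ _ ⟨X, hX, rfl⟩ ⟨Y, hY, rfl⟩
    exact (h1 a X Y hX hY).2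
  have pu : ∀ Y : HK P, En ⊤ Y →
      Mor.Push (DF α) (DF β) (fun a => En (Lo a)) (fun a => En (Hi a)) Y := fun Y hY =>
    ⟨lev hY, fun b => by
      obtain ⟨Q, s, hQ, i⟩ := Mor.Appr.env (A := DF α) (B := DF β) mLo mHi l₀
        (fun a X h => Mor.Env.of (sm le_top X h)) kα
        (by rintro _ ⟨X, -, rfl⟩ a; exact h2 X a) hY b
      exact ⟨Q, s, hQ, lev hQ, i⟩⟩
  have ee : ∀ {S : ObjectProperty P} {Z : HK P}, En S Z → env ⊤ Z := fun h =>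
    En.le_env (S := ⊤) (X := O) trivial _ (Mor.Env.mono (sm le_top) _ h)
  exact Mor.morH (k := ℂ) (DF α) (DF β) (Lo := fun a => En (Lo a)) (Hi := fun a => En (Hi a))
    (fun _ _ h => Mor.Env.mono (mLo h)) (fun _ _ h => Mor.Env.mono (mHi h))
    (fun a _ _ => Mor.Bij.env (kα a)) (fun a _ _ => Mor.Bij.env (kβ a))
    (fun _ _ h => Mor.bounded_DF α (ee h)) (fun _ _ h => Mor.bounded_DF β (ee h))
    (fun _ ⟨Y, hY, ρ⟩ => ⟨Y, pu Y hY, ρ⟩) (fun _ ⟨Y, hY, ρ⟩ => ⟨Y, pu Y hY, ρ⟩) h3 h4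

end Pool.Agent.Lib.MP_d3d358_ag.Th
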