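import Pool.Agent.Lib.MP_d3d358_ag.Mor.Dense

set_option autoImplicit false

open CategoryTheory Category Limits Pretriangulated

universe v₁ v₂ v₃ u₁ u₂ u₃

namespace Pool.Agent.Lib.MP_d3d358_ag.Mor

section

variable {C : Type u₁} [Category.{v₁} C] [HasZeroObject C] [HasShift C ℤ] [Preadditive C]
  [∀ n : ℤ, (shiftFunctor C n).Additive] [Pretriangulated C]

/-- A retract of a distinguished triangle is distinguished. -/
theorem dist_of_retract {S T : Triangle C} (hT : T ∈ distTriang C) (i : S ⟶ T) (p : T ⟶ S)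
    (h : i ≫ p = 𝟙 S) : S ∈ distTriang C := by
  have h₁ : i.hom₁ ≫ p.hom₁ = 𝟙 _ := congrArg TriangleMorphism.hom₁ h
  have h₂ : i.hom₂ ≫ p.hom₂ = 𝟙 _ := congrArg TriangleMorphism.hom₂ h
  have h₃ : i.hom₃ ≫ p.hom₃ = 𝟙 _ := congrArg TriangleMorphism.hom₃ h
  obtain ⟨Z, g, k, hZ⟩ := distinguished_cocone_triangle S.mor₁
  obtain ⟨c₀, hc₁, hc₂⟩ : ∃ c₀ : Z ⟶ T.obj₃, g ≫ c₀ = i.hom₂ ≫ T.mor₂ ∧
      k ≫ i.hom₁⟦(1 : ℤ)⟧' = c₀ ≫ T.mor₃ :=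
    complete_distinguished_triangle_morphism _ _ hZ hT i.hom₁ i.hom₂ i.comm₁
  obtain ⟨d₀, hd₁, hd₂⟩ : ∃ d₀ : T.obj₃ ⟶ Z, T.mor₂ ≫ d₀ = p.hom₂ ≫ g ∧
      T.mor₃ ≫ p.hom₁⟦(1 : ℤ)⟧' = d₀ ≫ k :=
    complete_distinguished_triangle_morphism _ _ hT hZ p.hom₁ p.hom₂ p.comm₁
  have h₁' : i.hom₁⟦(1 : ℤ)⟧' ≫ p.hom₁⟦(1 : ℤ)⟧' = 𝟙 _ := by
    rw [← Functor.map_comp, h₁, CategoryTheory.Functor.map_id]
  have hc₃ : g ≫ (c₀ ≫ p.hom₃) = S.mor₂ := by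
    rw [← assoc, hc₁, assoc, p.comm₂, ← assoc, h₂, id_comp]
  have hc₄ : (c₀ ≫ p.hom₃) ≫ S.mor₃ = k := by
    rw [assoc, ← p.comm₃, ← assoc, ← hc₂, assoc, h₁', comp_id]
  have hd₃ : S.mor₂ ≫ (i.hom₃ ≫ d₀) = g := by
    rw [← assoc, i.comm₂, assoc, hd₁, ← assoc, h₂, id_comp]
  have hd₄ : (i.hom₃ ≫ d₀) ≫ k = S.mor₃ := by
    rw [assoc, ← hd₂, ← assoc, ← i.comm₃, assoc, h₁', comp_id]
  generalize c₀ ≫ p.hom₃ = c at hc₃ hc₄
  generalize i.hom₃ ≫ d₀ = d at hd₃ hd₄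
  let ψ : Triangle.mk S.mor₁ g k ⟶ Triangle.mk S.mor₁ g k :=
    { hom₁ := 𝟙 _, hom₂ := 𝟙 _, hom₃ := c ≫ d
      comm₁ := (comp_id _).trans (id_comp _).symm
      comm₂ := by
        change g ≫ c ≫ d = 𝟙 _ ≫ g
        rw [← assoc, hc₃, hd₃, id_comp]
      comm₃ := by
        change k ≫ (𝟙 S.obj₁)⟦(1 : ℤ)⟧' = (c ≫ d) ≫ k
        rw [assoc, hd₄, hc₄, CategoryTheory.Functor.map_id, comp_id] }
  have hcd : IsIso (c ≫ d) := isIso₃_of_isIso₁₂ ψ hZ hZ (IsIso.id _) (IsIso.id _)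
  have e₁ : S.mor₂ ≫ (d ≫ c - 𝟙 _) = 0 := by
    rw [Preadditive.comp_sub, ← assoc, hd₃, hc₃, comp_id, sub_self]
  have e₂ : (d ≫ c - 𝟙 _) ≫ S.mor₃ = 0 := by
    rw [Preadditive.sub_comp, assoc, hc₄, hd₄, id_comp, sub_self]
  obtain ⟨m, hm⟩ := T.coyoneda_exact₃ hT ((d ≫ c - 𝟙 _) ≫ i.hom₃) (by
    rw [assoc, ← i.comm₃, ← assoc, e₂, zero_comp])
  have e₃ : d ≫ c - 𝟙 _ = m ≫ p.hom₂ ≫ S.mor₂ := by
    rw [← p.comm₂, ← assoc, ← hm, assoc, h₃, comp_id]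
  have e₄ : (d ≫ c - 𝟙 _) ≫ (d ≫ c - 𝟙 _) = 0 := by
    calc (d ≫ c - 𝟙 _) ≫ (d ≫ c - 𝟙 _) = (m ≫ p.hom₂ ≫ S.mor₂) ≫ (d ≫ c - 𝟙 _) := by rw [← e₃]
      _ = 0 := by rw [assoc, assoc, e₁, comp_zero, comp_zero]
  have e₅ : ((𝟙 _ - (d ≫ c - 𝟙 _)) ≫ d) ≫ c = 𝟙 _ := by
    have : d ≫ c = (d ≫ c - 𝟙 _) + 𝟙 _ := by abel
    rw [assoc]
    generalize d ≫ c - 𝟙 S.obj₃ = n at this e₄
    rw [this, Preadditive.comp_add, Preadditive.sub_comp, e₄, id_comp, comp_id]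
    abel
  have hc : IsIso c := by
    refine ⟨d ≫ inv (c ≫ d), by rw [← assoc, IsIso.hom_inv_id], ?_⟩
    have e₆ : c ≫ d ≫ inv (c ≫ d) = 𝟙 _ := by rw [← assoc, IsIso.hom_inv_id]
    have e₇ : d ≫ inv (c ≫ d) = (𝟙 _ - (d ≫ c - 𝟙 _)) ≫ d := by
      calc d ≫ inv (c ≫ d) = (((𝟙 _ - (d ≫ c - 𝟙 _)) ≫ d) ≫ c) ≫ d ≫ inv (c ≫ d) := by
            rw [e₅, id_comp]
        _ = _ := by rw [assoc, e₆, comp_id]
    rw [e₇, e₅]
  refine isomorphic_distinguished _ hZ _ (Iso.symm ?_)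
  refine Triangle.isoMk _ _ (Iso.refl _) (Iso.refl _) (@asIso _ _ _ _ c hc) ?_ ?_ ?_
  · exact (comp_id _).trans (id_comp _).symm
  · exact hc₃.trans (id_comp _).symm
  · change k ≫ (𝟙 S.obj₁)⟦(1 : ℤ)⟧' = c ≫ S.mor₃
    rw [hc₄, CategoryTheory.Functor.map_id, comp_id]

/-- A distinguished triangle whose first morphism is a retract of the first morphism of another
distinguished triangle is a retract of that triangle. -/
theorem retract_of_mor₁ {S T : Triangle C} (hS : S ∈ distTriang C) (hT : T ∈ distTriang C)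
    (ρ₁ : Retract S.obj₁ T.obj₁) (ρ₂ : Retract S.obj₂ T.obj₂)
    (hi : S.mor₁ ≫ ρ₂.i = ρ₁.i ≫ T.mor₁) (hr : T.mor₁ ≫ ρ₂.r = ρ₁.r ≫ S.mor₁) :
    ∃ (i : S ⟶ T) (p : T ⟶ S), i ≫ p = 𝟙 S := by
  let i := completeDistinguishedTriangleMorphism S T hS hT ρ₁.i ρ₂.i hi
  let p := completeDistinguishedTriangleMorphism T S hT hS ρ₁.r ρ₂.r hr
  have h₁ : (i ≫ p).hom₁ = 𝟙 _ := ρ₁.retract
  have h₂ : (i ≫ p).hom₂ = 𝟙 _ := ρ₂.retract
  have i₁ : IsIso (i ≫ p).hom₁ := by rw [h₁]; exact IsIso.id _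
  have i₂ : IsIso (i ≫ p).hom₂ := by rw [h₂]; exact IsIso.id _
  have i₃ : IsIso (i ≫ p).hom₃ := isIso₃_of_isIso₁₂ _ hS hS i₁ i₂
  have : IsIso (i ≫ p) := Triangle.isIso_of_isIsos _ i₁ i₂ i₃
  exact ⟨i, p ≫ inv (i ≫ p), by rw [← assoc, IsIso.hom_inv_id]⟩

end

variable {K : Type u₁} [Category.{v₁} K] [HasZeroObject K] [HasShift K ℤ] [Preadditive K]
  [∀ n : ℤ, (shiftFunctor K n).Additive] [Pretriangulated K]
  {D : Type u₂} [Category.{v₂} D] [HasZeroObject D] [HasShift D ℤ] [Preadditive D]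
  [∀ n : ℤ, (shiftFunctor D n).Additive] [Pretriangulated D]
  {E : Type u₃} [Category.{v₃} E] [HasZeroObject E] [HasShift E ℤ] [Preadditive E]
  [∀ n : ℤ, (shiftFunctor E n).Additive] [Pretriangulated E]

/-- A distinguished triangle whose first two objects are retracts of objects in the image of `L`
is a retract of the image of a distinguished triangle. -/
theorem retract_of_roof (L : K ⥤ D) [L.CommShift ℤ] [L.IsTriangulated]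
    (roof : ∀ (P Q : K) (f : L.obj P ⟶ L.obj Q), ∃ (Q' : K) (v : P ⟶ Q') (s : Q ⟶ Q'),
      IsIso (L.map s) ∧ f ≫ L.map s = L.map v)
    {S : Triangle D} (hS : S ∈ distTriang D) {P Q : K} (ρ₁ : Retract S.obj₁ (L.obj P))
    (ρ₂ : Retract S.obj₂ (L.obj Q)) :
    ∃ (T : Triangle K) (_ : T ∈ distTriang K) (i : S ⟶ L.mapTriangle.obj T)
      (p : L.mapTriangle.obj T ⟶ S), i ≫ p = 𝟙 S := by
  obtain ⟨Q', v, s, hs, h⟩ := roof P Q (ρ₁.r ≫ S.mor₁ ≫ ρ₂.i)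
  obtain ⟨R, g, k, hT⟩ := distinguished_cocone_triangle v
  let ρ₃ : Retract S.obj₂ (L.obj Q') :=
    { i := ρ₂.i ≫ L.map s, r := inv (L.map s) ≫ ρ₂.r
      retract := by rw [assoc, IsIso.hom_inv_id_assoc, ρ₂.retract] }
  refine ⟨_, hT, retract_of_mor₁ hS (L.map_distinguished _ hT) ρ₁ ρ₃ ?_ ?_⟩
  · change S.mor₁ ≫ ρ₂.i ≫ L.map s = ρ₁.i ≫ L.map v
    rw [← h, assoc, ← assoc ρ₁.i, ρ₁.retract, id_comp, assoc]
  · change L.map v ≫ inv (L.map s) ≫ ρ₂.r = ρ₁.r ≫ S.mor₁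
    rw [← h, assoc, IsIso.hom_inv_id_assoc, assoc, assoc, ρ₂.retract, comp_id]

/-- A functor is triangulated as soon as its composite with `L` is. -/
theorem RoofDense.isTriangulated {L : K ⥤ D} [L.CommShift ℤ] [L.IsTriangulated]
    (hL : RoofDense L) (G : D ⥤ E) [G.CommShift ℤ] [G.Additive] [(L ⋙ G).IsTriangulated] :
    G.IsTriangulated where
  map_distinguished S hS := by
    obtain ⟨T, hT, i, p, h⟩ := retract_of_roof L hL.roof hS (hL.rt _) (hL.rt _)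
    refine dist_of_retract (T := G.mapTriangle.obj (L.mapTriangle.obj T)) ?_
      (G.mapTriangle.map i) (G.mapTriangle.map p) ?_
    · exact isomorphic_distinguished _ ((L ⋙ G).map_distinguished T hT) _
        ((Functor.mapTriangleCompIso L G).app T).symm
    · rw [← Functor.map_comp, h, CategoryTheory.Functor.map_id]

/-- If the image of `L` generates `D` as a thick subcategory, every object of `D` is a retract of
an object in the image. -/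
theorem dense_of_envelope (L : K ⥤ D) [L.CommShift ℤ] [L.IsTriangulated]
    (roof : ∀ (P Q : K) (f : L.obj P ⟶ L.obj Q), ∃ (Q' : K) (v : P ⟶ Q') (s : Q ⟶ Q'),
      IsIso (L.map s) ∧ f ≫ L.map s = L.map v)
    (W : ObjectProperty D) (hW : ∀ Z, W Z → ∃ P : K, Nonempty (Retract Z (L.obj P)))
    (Z : D) (hZ : W.triangEnvelope Z) : ∃ P : K, Nonempty (Retract Z (L.obj P)) := by
  let V : ObjectProperty D := fun Z => ∃ P : K, Nonempty (Retract Z (L.obj P))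
  have hr : V.IsStableUnderRetracts := ⟨fun ρ ⟨P, ⟨σ⟩⟩ => ⟨P, ⟨ρ.trans σ⟩⟩⟩
  have hs : V.IsStableUnderShift ℤ := ⟨fun a => ⟨fun X ⟨P, ⟨σ⟩⟩ =>
    ⟨P⟦a⟧, ⟨(σ.map (shiftFunctor D a)).trans
      (Retract.ofIso ((L.commShiftIso a).symm.app P))⟩⟩⟩⟩
  have h3 : V.IsTriangulatedClosed₃ := ObjectProperty.IsTriangulatedClosed₃.mk' (by
    rintro S hS ⟨P, ⟨ρ₁⟩⟩ ⟨Q, ⟨ρ₂⟩⟩
    obtain ⟨T, hT, i, p, h⟩ := retract_of_roof L roof hS ρ₁ ρ₂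
    exact ⟨T.obj₃, ⟨⟨i.hom₃, p.hom₃, congrArg TriangleMorphism.hom₃ h⟩⟩⟩)
  have h2 : V.IsTriangulatedClosed₂ :=
    ObjectProperty.IsTriangulatedClosed₂.of_isTriangulatedClosed₃
  have h0 : V.ContainsZero := by
    obtain ⟨O, hO⟩ := HasZeroObject.zero (C := K)
    exact ⟨L.obj O, L.map_isZero hO, O, ⟨Retract.refl _⟩⟩
  have ht : V.IsTriangulated := {}
  exact (ObjectProperty.triangEnvelope_le_iff (P := W) (Q := V)).2 hW Z hZ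

end Pool.Agent.Lib.MP_d3d358_ag.Mor
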