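import Pool.Agent.Lib.MP_d3d358_ag.Mor.Core
import Pool.Agent.Lib.MP_d3d358_ag.Mor.Idem
import Pool.Agent.Lib.MP_d3d358_ag.Mor.Dev

/-! Devissage along thick subcategories and the Morita theorem for bounded derived categories. -/

set_option autoImplicit false
set_option linter.unusedSectionVars false

open CategoryTheory Category Limits Pretriangulated

namespace Pool.Agent.Lib.MP_d3d358_ag.Mor

variable {H : Type*} [Category* H] [HasZeroObject H] [HasShift H ℤ] [Preadditive H]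
  [∀ n : ℤ, (shiftFunctor H n).Additive] [Pretriangulated H]

/-- Induction along the thick subcategory generated by `S`. -/
theorem thick_ind {S : ObjectProperty H} {W : H → Prop} (of : ∀ X, S X → W X)
    (zero : ∀ X, IsZero X → W X) (retr : ∀ X Y, Retract X Y → W Y → W X)
    (shift : ∀ X (n : ℤ), W X → W (X⟦n⟧))
    (ext : ∀ T ∈ distTriang H, W T.obj₁ → W T.obj₃ → W T.obj₂) {X : H}
    (h : S.triangEnvelope X) : W X := by
  let V : ObjectProperty H := W
  have hr : V.IsStableUnderRetracts := ⟨fun ρ h => retr _ _ ρ h⟩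
  have hs : V.IsStableUnderShift ℤ := ⟨fun a => ⟨fun X h => shift X a h⟩⟩
  have h2 : V.IsTriangulatedClosed₂ := ObjectProperty.IsTriangulatedClosed₂.mk' ext
  have h0 : V.ContainsZero := by
    obtain ⟨O, hO⟩ := HasZeroObject.zero (C := H)
    exact ⟨O, hO, zero O hO⟩
  have ht : V.IsTriangulated := {}
  exact (ObjectProperty.triangEnvelope_le_iff (P := S) (Q := V)).2 of X h

theorem Bij₀.retract {H D : Type*} [Category* H] [Category* D] {A : H ⥤ D} {X Y X' Y' : H}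
    (h : Bij₀ A X Y) (ρ : Retract X' X) (σ : Retract Y' Y) : Bij₀ A X' Y' := by
  constructor
  · intro v w hvw
    have e : ρ.r ≫ v ≫ σ.i = ρ.r ≫ w ≫ σ.i := h.1 (by simp only [Functor.map_comp, hvw])
    simpa using congrArg (fun x => ρ.i ≫ x ≫ σ.r) e
  · intro f
    obtain ⟨v, hv⟩ := h.2 (A.map ρ.r ≫ f ≫ A.map σ.i)
    refine ⟨ρ.i ≫ v ≫ σ.r, ?_⟩
    rw [A.map_comp, A.map_comp, hv, assoc, assoc, ← A.map_comp, σ.retract, ← assoc, ← A.map_comp,
      ρ.retract, A.map_id, A.map_id, id_comp, comp_id]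

theorem Bij.retract {H D : Type*} [Category* H] [Category* D] [HasShift H ℤ] {A : H ⥤ D}
    {X Y X' Y' : H} (h : Bij A X Y) (ρ : Retract X' X) (σ : Retract Y' Y) : Bij A X' Y' :=
  fun n => (h n).retract ρ (σ.map (shiftFunctor H n))

section

variable {D : Type*} [Category* D] [HasZeroObject D] [HasShift D ℤ] [Preadditive D]
  [∀ n : ℤ, (shiftFunctor D n).Additive] [Pretriangulated D]
  {A : H ⥤ D} [A.CommShift ℤ] [A.IsTriangulated] {S S' : ObjectProperty H}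

theorem Bij.thick_right {X : H} (h : ∀ Y, S Y → Bij A X Y) {Y : H} (hY : S.triangEnvelope Y) :
    Bij A X Y :=
  thick_ind (W := fun Y => Bij A X Y) h (fun _ => Bij.of_isZero_right X)
    (fun _ _ ρ i => i.retract (Retract.refl _) ρ) (fun _ n i => i.shift_right n)
    (fun T hT => Bij.ext_right T hT) hY

theorem Bij.thick_left {Y : H} (h : ∀ X, S X → Bij A X Y) {X : H} (hX : S.triangEnvelope X) :
    Bij A X Y :=
  thick_ind (W := fun X => Bij A X Y) h (fun _ z => Bij.of_isZero_left z Y)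
    (fun _ _ ρ i => i.retract ρ (Retract.refl _)) (fun _ n i => i.shift_left n)
    (fun T hT => Bij.ext_left T hT) hX

/-- Double devissage along thick subcategories. -/
theorem Bij.thick (h : ∀ X Y, S X → S' Y → Bij A X Y) {X Y : H} (hX : S.triangEnvelope X)
    (hY : S'.triangEnvelope Y) : Bij A X Y :=
  Bij.thick_left (fun X hX => Bij.thick_right (fun Y hY => h X Y hX hY) hY) hX

/-- A triangulated functor maps thick subcategories to thick subcategories. -/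
theorem thick_map {V : ObjectProperty D} [V.IsTriangulated] [V.IsStableUnderRetracts]
    (h : ∀ X, S X → V (A.obj X)) {X : H} (hX : S.triangEnvelope X) : V (A.obj X) :=
  thick_ind (W := fun X => V (A.obj X)) h (fun _ z => V.prop_of_isZero (A.map_isZero z))
    (fun _ _ ρ i => V.prop_of_retract (ρ.map A) i)
    (fun X n i => V.prop_of_iso ((A.commShiftIso n).app X).symm (V.le_shift n _ i))
    (fun T hT => V.ext_of_isTriangulatedClosed₂ _ (A.map_distinguished T hT)) hX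

end

/-- No morphisms to the shifts of `Y` from the generators: none from the thick subcategory. -/
theorem hom_zero_left {S : ObjectProperty H} {Y : H}
    (h : ∀ X, S X → ∀ (n : ℤ) (f : X ⟶ Y⟦n⟧), f = 0) {X : H} (hX : S.triangEnvelope X) :
    ∀ (n : ℤ) (f : X ⟶ Y⟦n⟧), f = 0 := by
  have sh : ∀ (X : H) (m : ℤ), (∀ (n : ℤ) (f : X ⟶ Y⟦n⟧), f = 0) →
      ∀ (n : ℤ) (f : X⟦m⟧ ⟶ Y⟦n⟧), f = 0 := fun X m h n f => by
    obtain ⟨g, hg⟩ := (shiftFunctor H m).map_surjective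
      (f ≫ (shiftFunctorAdd' H (n - m) m n (sub_add_cancel n m)).hom.app Y)
    rw [h _ g, Functor.map_zero] at hg
    rw [← cancel_mono ((shiftFunctorAdd' H (n - m) m n (sub_add_cancel n m)).hom.app Y), zero_comp]
    exact hg.symm
  refine thick_ind (W := fun X => ∀ (n : ℤ) (f : X ⟶ Y⟦n⟧), f = 0) h
    (fun _ h _ _ => h.eq_of_src _ _) (fun _ _ ρ h n f => ?_) sh (fun T hT h₁ h₃ n f => ?_) hX
  · rw [← id_comp f, ← ρ.retract, assoc, h n (ρ.r ≫ f), comp_zero]
  · obtain ⟨g, rfl⟩ := T.yoneda_exact₂ hT f (h₁ n _)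
    rw [h₃ n g, comp_zero]

/-- No morphisms from `X` to the shifts of the generators: none to the thick subcategory. -/
theorem hom_zero_right {S : ObjectProperty H} {X : H}
    (h : ∀ Y, S Y → ∀ (n : ℤ) (f : X ⟶ Y⟦n⟧), f = 0) {Y : H} (hY : S.triangEnvelope Y) :
    ∀ (n : ℤ) (f : X ⟶ Y⟦n⟧), f = 0 := by
  refine thick_ind (W := fun Y => ∀ (n : ℤ) (f : X ⟶ Y⟦n⟧), f = 0) h
    (fun _ h n _ => ((shiftFunctor H n).map_isZero h).eq_of_tgt _ _) (fun _ _ ρ h n f => ?_)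
    (fun Y m h n f => ?_) (fun T hT h₁ h₃ n f => ?_) hY
  · rw [← comp_id f, ← (ρ.map (shiftFunctor H n)).retract, ← assoc, h n (f ≫ _), zero_comp]
  · rw [← cancel_mono ((shiftFunctorAdd H m n).inv.app Y), zero_comp]
    exact h _ _
  · obtain ⟨g, rfl⟩ := Triangle.coyoneda_exact₂ _ (Triangle.shift_distinguished T hT n) f (h₃ n _)
    exact (congrArg (· ≫ _) (h₁ n g)).trans zero_comp

theorem thick_level [IsTriangulated H] {J : Type*} [SemilatticeSup J] [Nonempty J]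
    {Lo : J → ObjectProperty H} (hLo : Monotone Lo) (ne : ∀ a, (Lo a).Nonempty)
    {S : ObjectProperty H} (hS : ∀ X, S X → ∃ a, Lo a X) {X : H} (h : S.triangEnvelope X) :
    ∃ a, (Lo a).triangEnvelope X := by
  refine thick_ind (W := fun X => ∃ a, (Lo a).triangEnvelope X)
    (fun X h => (hS X h).imp fun a h => (Lo a).le_triangEnvelope _ h)
    (fun X h => ⟨Classical.arbitrary J, (Lo _).triangEnvelope.prop_of_isZero h⟩)
    (fun _ _ ρ ⟨a, h⟩ => ⟨a, (Lo a).triangEnvelope.prop_of_retract ρ h⟩)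
    (fun _ n ⟨a, h⟩ => ⟨a, (Lo a).triangEnvelope.le_shift n _ h⟩)
    (fun T hT ⟨a, h₁⟩ ⟨b, h₃⟩ => ⟨a ⊔ b, ?_⟩) h
  exact (Lo (a ⊔ b)).triangEnvelope.ext_of_isTriangulatedClosed₂ T hT
    (ObjectProperty.monotone_triangEnvelope (hLo le_sup_left) _ h₁)
    (ObjectProperty.monotone_triangEnvelope (hLo le_sup_right) _ h₃)

instance bounded_retract {A : Type*} [Category* A] [Abelian A] [HasDerivedCategory A] :
    (DerivedCategory.TStructure.t (C := A)).bounded.IsStableUnderRetracts where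
  of_retract {X Y} ρ := by
    rintro ⟨⟨a, ha⟩, ⟨b, hb⟩⟩
    have ha : Y.IsGE a := ha
    have hb : Y.IsLE b := hb
    have z : ∀ i : ℤ, IsZero ((DerivedCategory.homologyFunctor A i).obj Y) →
        IsZero ((DerivedCategory.homologyFunctor A i).obj X) := fun i h => by
      rw [IsZero.iff_id_eq_zero, ← (ρ.map (DerivedCategory.homologyFunctor A i)).retract,
        h.eq_of_tgt (ρ.map (DerivedCategory.homologyFunctor A i)).i 0, zero_comp]
    exact ⟨⟨a, (DerivedCategory.isGE_iff X a).2 fun i hi =>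
        z i ((DerivedCategory.isGE_iff Y a).1 ha i hi)⟩,
      ⟨b, (DerivedCategory.isLE_iff X b).2 fun i hi =>
        z i ((DerivedCategory.isLE_iff Y b).1 hb i hi)⟩⟩

section

variable {D₁ : Type*} [Category* D₁] [HasZeroObject D₁] [HasShift D₁ ℤ] [Preadditive D₁]
  [∀ n : ℤ, (shiftFunctor D₁ n).Additive] [Pretriangulated D₁]
  {D₂ : Type*} [Category* D₂] [HasZeroObject D₂] [HasShift D₂ ℤ] [Preadditive D₂]
  [∀ n : ℤ, (shiftFunctor D₂ n).Additive] [Pretriangulated D₂]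
  (A : H ⥤ D₁) [A.CommShift ℤ] [A.IsTriangulated] (B : H ⥤ D₂) [B.CommShift ℤ] [B.IsTriangulated]
  {J : Type*} [SemilatticeSup J] [Nonempty J] (Lo Hi : J → ObjectProperty H)

/-- Objects of finite level that can be pushed arbitrarily high. -/
def Push : ObjectProperty H := fun X => (∃ a, Lo a X) ∧
  ∀ b, ∃ (Q : H) (s : X ⟶ Q), Hi b Q ∧ (∃ a, Lo a Q) ∧ IsIso (A.map s) ∧ IsIso (B.map s)

variable {A B Lo Hi}

theorem Push.target (hLo : Monotone Lo) (hHi : Antitone Hi)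
    (hA : ∀ a X Y, Lo a X → Hi a Y → Bij A X Y) {X Q : H} (hX : Push A B Lo Hi X) (s : X ⟶ Q)
    (hQ : ∃ a, Lo a Q) (iA : IsIso (A.map s)) (iB : IsIso (B.map s)) : Push A B Lo Hi Q := by
  refine ⟨hQ, fun b => ?_⟩
  obtain ⟨a₁, h₁⟩ := hX.1
  obtain ⟨a₂, h₂⟩ := hQ
  obtain ⟨Q', s', hQ', l, jA, jB⟩ := hX.2 (b ⊔ (a₁ ⊔ a₂))
  have k₁ : Bij₀ A X Q' := (hA _ _ _ (hLo (le_sup_left.trans le_sup_right) _ h₁) hQ').zero
  have k₂ : Bij₀ A Q Q' := (hA _ _ _ (hLo (le_sup_right.trans le_sup_right) _ h₂) hQ').zero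
  obtain ⟨t, ht⟩ := k₂.2 (inv (A.map s) ≫ A.map s')
  have e : s ≫ t = s' := k₁.1 (by rw [A.map_comp, ht, IsIso.hom_inv_id_assoc])
  refine ⟨Q', t, hHi le_sup_left _ hQ', l, by rw [ht]; infer_instance, ?_⟩
  have : IsIso (B.map s ≫ B.map t) := by rw [← B.map_comp, e]; exact jB
  exact IsIso.of_isIso_comp_left (B.map s) _

theorem Push.hyp (hLo : Monotone Lo) (hHi : Antitone Hi)
    (hA : ∀ a X Y, Lo a X → Hi a Y → Bij A X Y) (hB : ∀ a X Y, Lo a X → Hi a Y → Bij B X Y)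
    {E₁ E₂ : Type*} [Category* E₁] [Category* E₂] (i₁ : E₁ ⥤ D₁) [i₁.Full] [i₁.Faithful]
    (i₂ : E₂ ⥤ D₂) [i₂.Full] [i₂.Faithful] (A' : (Env (Push A B Lo Hi)).FullSubcategory ⥤ E₁)
    (B' : (Env (Push A B Lo Hi)).FullSubcategory ⥤ E₂)
    (eA : A' ⋙ i₁ ≅ (Env (Push A B Lo Hi)).ι ⋙ A) (eB : B' ⋙ i₂ ≅ (Env (Push A B Lo Hi)).ι ⋙ B) :
    Hyp A' B' :=
  hyp_sub (Lo := Lo) (Hi := fun a X => Hi a X ∧ Push A B Lo Hi X) hLo
    (fun _ _ h _ hX => ⟨hHi h _ hX.1, hX.2⟩) (fun _ h => h.1.imp fun _ => Env.of)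
    (fun _ _ h => Env.of h.2) (fun a X Y h h' => hA a X Y h h'.1)
    (fun a X Y h h' => hB a X Y h h'.1)
    (fun X h a => by
      obtain ⟨Q, s, hQ, l, iA, iB⟩ := h.2 a
      exact ⟨Q, s, Env.of ⟨hQ, h.target hLo hHi hA s l iA iB⟩, iA, iB⟩) i₁ i₂ A' B' eA eB

end

instance linear_lift {k : Type*} [Semiring k] {C D : Type*} [Category* C] [Category* D]
    [Preadditive C] [Preadditive D] [Linear k C] [Linear k D] (V : ObjectProperty D) (F : C ⥤ D)
    [F.Linear k] (hF : ∀ X, V (F.obj X)) : (V.lift F hF).Linear k where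
  map_smul f r := ObjectProperty.hom_ext _ (F.map_smul r f)

open DerivedCategory in
/-- The Morita theorem for bounded derived categories, from an ambient triangulated category with
low and high objects. -/
theorem morH {k : Type*} [Ring k] [Linear k H] {𝒜 ℬ : Type*} [Category* 𝒜] [Category* ℬ]
    [Abelian 𝒜] [Abelian ℬ] [Linear k 𝒜] [Linear k ℬ] [HasDerivedCategory 𝒜]
    [HasDerivedCategory ℬ] (A : H ⥤ DerivedCategory 𝒜) [A.CommShift ℤ] [A.IsTriangulated]
    [A.Linear k] (B : H ⥤ DerivedCategory ℬ) [B.CommShift ℤ] [B.IsTriangulated] [B.Linear k]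
    {J : Type*} [SemilatticeSup J] [Nonempty J] {Lo Hi : J → ObjectProperty H} (hLo : Monotone Lo)
    (hHi : Antitone Hi) (hA : ∀ a X Y, Lo a X → Hi a Y → Bij A X Y)
    (hB : ∀ a X Y, Lo a X → Hi a Y → Bij B X Y)
    (bA : ∀ a X, Lo a X → TStructure.t.bounded (A.obj X))
    (bB : ∀ a X, Lo a X → TStructure.t.bounded (B.obj X))
    {SA : ObjectProperty (DerivedCategory 𝒜)} {SB : ObjectProperty (DerivedCategory ℬ)}
    (sA : ∀ Z, SA Z → ∃ X, Push A B Lo Hi X ∧ Nonempty (Retract Z (A.obj X)))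
    (sB : ∀ Z, SB Z → ∃ X, Push A B Lo Hi X ∧ Nonempty (Retract Z (B.obj X)))
    (gA : ∀ Z, TStructure.t.bounded Z → SA.triangEnvelope Z)
    (gB : ∀ Z, TStructure.t.bounded Z → SB.triangEnvelope Z) :
    ∃ (F : Bounded 𝒜 ⥤ Bounded ℬ) (_ : F.CommShift ℤ),
      F.IsEquivalence ∧ F.IsTriangulated ∧ F.Linear k := by
  let W := Env (Push A B Lo Hi)
  have wA : ∀ X : W.FullSubcategory, TStructure.t.bounded ((W.ι ⋙ A).obj X) := fun X =>
    Env.le_of_isTriangulated (Q := TStructure.t.bounded.inverseImage A)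
      (fun X h => h.1.elim fun a h => bA a X h) _ X.2
  have wB : ∀ X : W.FullSubcategory, TStructure.t.bounded ((W.ι ⋙ B).obj X) := fun X =>
    Env.le_of_isTriangulated (Q := TStructure.t.bounded.inverseImage B)
      (fun X h => h.1.elim fun a h => bB a X h) _ X.2
  have H₀ : Hyp (W.ι ⋙ A) (W.ι ⋙ B) := Push.hyp hLo hHi hA hB (𝟭 _) (𝟭 _) _ _
    (Functor.rightUnitor _) (Functor.rightUnitor _)
  have H₁ : Hyp (TStructure.t.bounded.lift _ wA) (TStructure.t.bounded.lift _ wB) :=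
    Push.hyp hLo hHi hA hB TStructure.t.bounded.ι TStructure.t.bounded.ι _ _
      (ObjectProperty.liftCompιIso _ _ _) (ObjectProperty.liftCompιIso _ _ _)
  have := bounded_idempotentComplete (A := 𝒜)
  have := bounded_idempotentComplete (A := ℬ)
  obtain ⟨e, c, h₁, h₂, -, h₄, -⟩ := morCore (k := k) (TStructure.t.bounded.lift _ wA)
    (TStructure.t.bounded.lift _ wB) H₁
    (fun Z => by
      obtain ⟨P, ⟨ρ⟩⟩ := dense_of_envelope (W.ι ⋙ A) H₀.roof' SA (fun Z h => by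
        obtain ⟨X, hX, ρ⟩ := sA Z h
        exact ⟨⟨X, Env.of hX⟩, ρ⟩) Z.obj (gA _ Z.2)
      exact ⟨P, ⟨⟨ObjectProperty.homMk ρ.i, ObjectProperty.homMk ρ.r,
        ObjectProperty.hom_ext _ ρ.retract⟩⟩⟩)
    (fun Z => by
      obtain ⟨P, ⟨ρ⟩⟩ := dense_of_envelope (W.ι ⋙ B) H₀.symm.roof' SB (fun Z h => by
        obtain ⟨X, hX, ρ⟩ := sB Z h
        exact ⟨⟨X, Env.of hX⟩, ρ⟩) Z.obj (gB _ Z.2)
      exact ⟨P, ⟨⟨ObjectProperty.homMk ρ.i, ObjectProperty.homMk ρ.r,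
        ObjectProperty.hom_ext _ ρ.retract⟩⟩⟩)
  exact ⟨e, c, h₁, h₂, h₄⟩

end Pool.Agent.Lib.MP_d3d358_ag.Mor
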